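import Pool.Agent.Helper17.FP.Stmts

set_option autoImplicit false

/-! Module BII of project FP (MP_c38931_co): a dyadic block of primes `q`. -/

open Finset Filter

namespace Pool.Agent.Helper17.FP

open Pool.Agent.Helper17.SO Pool.Agent.Helper17.SV

theorem bii_growth (c K : ℝ) (hc : 0 < c) : ∃ M : ℝ, 1 ≤ M ∧ ∀ l : ℝ, M ≤ l →
    K * l ^ 5 ≤ Real.exp (c * l ^ (2 / 5 : ℝ)) := by
  have h1 : (fun x : ℝ => x ^ 15) =o[atTop] fun x => Real.exp (c * x) :=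
    isLittleO_pow_exp_pos_mul_atTop 15 hc
  have h2 := h1.comp_tendsto (tendsto_rpow_atTop (show (0 : ℝ) < 2 / 5 by norm_num))
  have h3 := h2.bound (show (0 : ℝ) < 1 by norm_num)
  obtain ⟨M0, hM0⟩ := eventually_atTop.1 h3
  refine ⟨max (max M0 K) 1, le_max_right _ _, ?_⟩
  intro l hl
  have hl1 : 1 ≤ l := (le_max_right _ _).trans hl
  have hl2 : M0 ≤ l := ((le_max_left _ _).trans (le_max_left _ _)).trans hl
  have hl3 : K ≤ l := ((le_max_right _ _).trans (le_max_left _ _)).trans hl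
  have h4 := hM0 l hl2
  simp only [Function.comp_apply, one_mul] at h4
  have h5 : (l ^ (2 / 5 : ℝ)) ^ 15 = l ^ 6 := by
    rw [← Real.rpow_natCast, ← Real.rpow_mul (by linarith), ← Real.rpow_natCast]
    norm_num
  rw [h5, Real.norm_of_nonneg (by positivity), Real.norm_of_nonneg (Real.exp_pos _).le] at h4
  refine le_trans ?_ h4
  have h6 : l ^ 6 = l * l ^ 5 := by ring
  rw [h6]
  exact mul_le_mul_of_nonneg_right hl3 (by positivity)

theorem bii_class {lam q k : ℕ} (h : ArithF lam q k) : FD lam q k ∧ lam < k ∧ q.Prime := by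
  obtain ⟨v, n, hk, hn, hv, -, hq, hqv, -⟩ := h
  refine ⟨?_, by omega, hq⟩
  have h1 : (k : ℤ) ^ 2 - k + lam = lam * v := by
    have : (lam : ℤ) * v + k = k * k + lam := by exact_mod_cast hv
    linarith
  unfold FD
  rw [h1]
  exact Dvd.dvd.mul_left (by exact_mod_cast hqv) _

theorem bii_fact {lam q k p : ℕ} (h : ArithF lam q k) (hp : p.Prime) (hpq : p ≠ q)
    (hj : jacobiSym (p : ℤ) q = -1) : (k - lam).factorization p ≠ 1 := by
  obtain ⟨v, n, hk, hn, hv, -, hq, hqv, hjac⟩ := h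
  intro h1
  have h2 : k - lam = n := by omega
  rw [h2] at h1
  have h3 := hjac p hp hpq (by rw [h1]; exact odd_one)
  rw [h3] at hj
  norm_num at hj

theorem bii_jac {p q : ℕ} (hp : p.Prime) (hq : q.Prime) (hpq : p ≠ q) :
    jacobiSym (p : ℤ) q = 1 ∨ jacobiSym (p : ℤ) q = -1 := by
  have h1 : IsCoprime (p : ℤ) (q : ℤ) :=
    Nat.isCoprime_iff_coprime.2 ((Nat.coprime_primes hp hq).2 hpq)
  exact jacobiSym.eq_one_or_neg_one (Int.isCoprime_iff_gcd_eq_one.1 h1)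

/-- the sum over the primes with symbol `-1` -/
theorem bii_sum {q z1 z : ℕ} (hq : q.Prime) (hz : z < q) :
    2 * ∑ p ∈ (PP z1 z).filter (fun p : ℕ => jacobiSym (p : ℤ) q = -1), 1 / (p : ℝ) =
      ∑ p ∈ PP z1 z, 1 / (p : ℝ) - ∑ p ∈ PP z1 z, (jacobiSym (p : ℤ) q : ℝ) / p := by
  classical
  rw [← Finset.sum_sub_distrib, Finset.mul_sum, Finset.sum_filter]
  refine Finset.sum_congr rfl fun p hp => ?_
  unfold PP at hp
  rw [Finset.mem_filter, Finset.mem_Ioc] at hp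
  have hpq : p ≠ q := by
    rintro rfl
    omega
  rcases bii_jac hp.2 hq hpq with h | h
  · rw [if_neg (by rw [h]; norm_num), h]
    norm_num
  · rw [if_pos h, h]
    push_cast
    ring


/-- the parameters: inequalities in `l` -/
theorem bii_par1 (lam b : ℕ) (hlam : 1 ≤ lam) (hb : 1 ≤ b) (l : ℝ) (hl1 : 1 ≤ l)
    (hK1 : 2 * (8 * lam + 10) * l ^ 5 ≤ Real.exp (1 / (16 * b) * l ^ (2 / 5 : ℝ))) :
    ∃ z1 z : ℕ, 8 * lam + 7 ≤ z1 ∧ z1 ≤ z ∧ (z : ℝ) ≤ Real.exp (l ^ (9 / 10 : ℝ) / (8 * b)) ∧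
      l ^ 3 ≤ z1 ∧ (z1 : ℝ) ≤ l ^ 3 + 8 * lam + 8 ∧ Real.log l / 2 ≤ LL z1 z := by
  have hl0 : 0 < l := by linarith
  have hb1 : (1 : ℝ) ≤ b := by exact_mod_cast hb
  have hb0 : (0 : ℝ) < b := by linarith
  have hlamR : (1 : ℝ) ≤ lam := by exact_mod_cast hlam
  have hp1 : l ^ (2 / 5 : ℝ) ≤ l ^ (9 / 10 : ℝ) :=
    Real.rpow_le_rpow_of_exponent_le hl1 (by norm_num)
  have hl5 : 1 ≤ l ^ 5 := one_le_pow₀ hl1
  have hl3 : 1 ≤ l ^ 3 := one_le_pow₀ hl1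
  have hl35 : l ^ 3 ≤ l ^ 5 := pow_le_pow_right₀ hl1 (by norm_num)
  obtain ⟨z1, hz1⟩ : ∃ z1 : ℕ, z1 = ⌈l ^ 3⌉₊ + 8 * lam + 7 := ⟨_, rfl⟩
  obtain ⟨Y, hY⟩ : ∃ Y : ℝ, Y = Real.exp (l ^ (9 / 10 : ℝ) / (8 * b)) := ⟨_, rfl⟩
  obtain ⟨s, hs⟩ : ∃ s : ℝ, s = Real.exp (l ^ (9 / 10 : ℝ) / (16 * b)) := ⟨_, rfl⟩
  obtain ⟨z, hz⟩ : ∃ z : ℕ, z = ⌊Y⌋₊ := ⟨_, rfl⟩
  have hz1low : l ^ 3 ≤ z1 := by
    rw [hz1]
    push_cast
    have := Nat.le_ceil (l ^ 3)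
    have h0 : (0 : ℝ) ≤ lam := by linarith
    linarith
  have hz1up3 : (z1 : ℝ) ≤ l ^ 3 + 8 * lam + 8 := by
    rw [hz1]
    push_cast
    have := Nat.ceil_lt_add_one (show (0 : ℝ) ≤ l ^ 3 by positivity)
    linarith
  have hz1up : (z1 : ℝ) ≤ (8 * lam + 10) * l ^ 5 := by
    have h2 : (8 * (lam : ℝ) + 9) * 1 ≤ (8 * lam + 9) * l ^ 5 :=
      mul_le_mul_of_nonneg_left hl5 (by linarith)
    have h3 : (8 * (lam : ℝ) + 10) * l ^ 5 = (8 * lam + 9) * l ^ 5 + l ^ 5 := by ring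
    rw [h3]
    linarith
  have hz1nat : 8 * lam + 7 ≤ z1 := by omega
  have hz10 : (0 : ℝ) < z1 := by linarith
  have hss : s * s = Y := by
    rw [hs, hY, ← Real.exp_add]
    congr 1
    field_simp
    ring
  have hsK : (8 * lam + 10) * l ^ 5 ≤ Real.exp (1 / (16 * b) * l ^ (2 / 5 : ℝ)) := by
    refine le_trans ?_ hK1
    have : 0 ≤ (8 * (lam : ℝ) + 10) * l ^ 5 := by positivity
    linarith
  have hexps : Real.exp (1 / (16 * b) * l ^ (2 / 5 : ℝ)) ≤ s := by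
    rw [hs]
    apply Real.exp_le_exp.2
    rw [div_mul_eq_mul_div, one_mul]
    exact div_le_div_of_nonneg_right hp1 (by positivity)
  have hs18 : 18 ≤ s := by
    refine le_trans ?_ (hsK.trans hexps)
    have h2 : (8 * (lam : ℝ) + 10) * 1 ≤ (8 * lam + 10) * l ^ 5 :=
      mul_le_mul_of_nonneg_left hl5 (by linarith)
    linarith
  have hz1s : (z1 : ℝ) ≤ s := hz1up.trans (hsK.trans hexps)
  have hs2 : 18 * s ≤ s * s := mul_le_mul_of_nonneg_right hs18 (by linarith)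
  have hsY : s ≤ Y := by
    rw [← hss]
    linarith
  have hz1z : z1 ≤ z := by
    rw [hz]
    exact Nat.le_floor (hz1s.trans hsY)
  have hY0 : 0 < Y := by rw [hY]; exact Real.exp_pos _
  have hzY : (z : ℝ) ≤ Y := by
    rw [hz]
    exact Nat.floor_le hY0.le
  have hzs : s ≤ z := by
    have h1 : Y < z + 1 := by rw [hz]; exact Nat.lt_floor_add_one Y
    rw [← hss] at h1
    linarith
  have hlogz : l ^ (9 / 10 : ℝ) / (16 * b) ≤ Real.log z := by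
    rw [← Real.log_exp (l ^ (9 / 10 : ℝ) / (16 * b)), ← hs]
    exact Real.log_le_log (by linarith) hzs
  have hlogz1 : Real.log z1 ≤ l ^ (2 / 5 : ℝ) / (16 * b) := by
    have h1 : (z1 : ℝ) ≤ Real.exp (l ^ (2 / 5 : ℝ) / (16 * b)) := by
      refine hz1up.trans (hsK.trans (le_of_eq ?_))
      congr 1
      ring
    have h2 := Real.log_le_log hz10 h1
    rwa [Real.log_exp] at h2
  have hz17 : (7 : ℝ) ≤ z1 := by
    have : 7 ≤ z1 := by omega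
    exact_mod_cast this
  have hlogz10 : 0 < Real.log z1 := Real.log_pos (by linarith)
  have hratio : l ^ (1 / 2 : ℝ) ≤ Real.log z / Real.log z1 := by
    rw [le_div_iff₀ hlogz10]
    have h1 : l ^ (1 / 2 : ℝ) * l ^ (2 / 5 : ℝ) = l ^ (9 / 10 : ℝ) := by
      rw [← Real.rpow_add hl0]
      norm_num
    calc l ^ (1 / 2 : ℝ) * Real.log z1 ≤ l ^ (1 / 2 : ℝ) * (l ^ (2 / 5 : ℝ) / (16 * b)) :=
          mul_le_mul_of_nonneg_left hlogz1 (Real.rpow_nonneg hl0.le _)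
      _ = l ^ (9 / 10 : ℝ) / (16 * b) := by rw [← mul_div_assoc, h1]
      _ ≤ Real.log z := hlogz
  have hLL : Real.log l / 2 ≤ LL z1 z := by
    unfold LL
    have h1 := Real.log_le_log (Real.rpow_pos_of_pos hl0 _) hratio
    rw [Real.log_rpow hl0] at h1
    linarith
  refine ⟨z1, z, hz1nat, hz1z, ?_, hz1low, hz1up3, hLL⟩
  rw [← hY]
  exact hzY

/-- `z < Q` and `z ^ 2 z1 ≤ Q` -/
theorem bii_par2 (b Q z z1 : ℕ) (hb : 1 ≤ b) (l : ℝ) (hl1 : 1 ≤ l) (hel : Real.exp l = Q)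
    (hz : (z : ℝ) ≤ Real.exp (l ^ (9 / 10 : ℝ) / (8 * b))) (hz1z : z1 ≤ z) :
    z < Q ∧ (z : ℝ) ^ 2 * z1 ≤ Q := by
  have hl0 : 0 < l := by linarith
  have hb1 : (1 : ℝ) ≤ b := by exact_mod_cast hb
  have hp3 : l ^ (9 / 10 : ℝ) ≤ l := by
    have := Real.rpow_le_rpow_of_exponent_le hl1 (show (9 / 10 : ℝ) ≤ 1 by norm_num)
    rwa [Real.rpow_one] at this
  have hz8 : (z : ℝ) ≤ Real.exp (l / 8) := by
    refine hz.trans (Real.exp_le_exp.2 ?_)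
    have h1 : l ^ (9 / 10 : ℝ) / (8 * b) ≤ l ^ (9 / 10 : ℝ) / 8 := by
      apply div_le_div_of_nonneg_left (Real.rpow_nonneg hl0.le _) (by norm_num)
      linarith
    linarith
  have hz0 : (0 : ℝ) ≤ z := Nat.cast_nonneg z
  constructor
  · have h1 : (z : ℝ) < Q := by
      calc (z : ℝ) ≤ Real.exp (l / 8) := hz8
        _ < Real.exp l := Real.exp_lt_exp.2 (by linarith)
        _ = Q := hel
    exact_mod_cast h1
  · have h1 : (z1 : ℝ) ≤ z := by exact_mod_cast hz1z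
    calc (z : ℝ) ^ 2 * z1 ≤ (z : ℝ) ^ 2 * z := mul_le_mul_of_nonneg_left h1 (by positivity)
      _ = (z : ℝ) ^ 3 := by ring
      _ ≤ (Real.exp (l / 8)) ^ 3 := pow_le_pow_left₀ hz0 hz8 3
      _ = Real.exp (3 * (l / 8)) := by
        rw [← Real.exp_nat_mul]
        norm_num
      _ ≤ Real.exp l := Real.exp_le_exp.2 (by linarith)
      _ = Q := hel

/-- the size conditions of the sieve -/
theorem bii_par3 (b lam x q w z z1 : ℕ) (hb : 1 ≤ b) (l L : ℝ) (hl1 : 1 ≤ l) (hlL : l ≤ L)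
    (hK2 : 2 * (8 * lam + 10) * L ^ 5 ≤ Real.exp (1 / (16 * b) * L ^ (2 / 5 : ℝ)))
    (hz : (z : ℝ) ≤ Real.exp (l ^ (9 / 10 : ℝ) / (8 * b)))
    (hz1 : (z1 : ℝ) ≤ l ^ 3 + 8 * lam + 8) (hw : (w : ℝ) ≤ L)
    (hq : (q : ℝ) * Real.exp (L ^ (9 / 10 : ℝ)) ≤ 2 * x) :
    z ^ b * q ≤ x ∧ w * z1 * q ≤ x := by
  have hl0 : 0 < l := by linarith
  have hL1 : 1 ≤ L := hl1.trans hlL
  have hL0 : 0 < L := by linarith
  have hb1 : (1 : ℝ) ≤ b := by exact_mod_cast hb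
  have hb0 : (0 : ℝ) < b := by linarith
  have hlam0 : (0 : ℝ) ≤ lam := Nat.cast_nonneg _
  have hx0 : (0 : ℝ) ≤ x := Nat.cast_nonneg _
  have hz0 : (0 : ℝ) ≤ z := Nat.cast_nonneg z
  have hz10 : (0 : ℝ) ≤ z1 := Nat.cast_nonneg z1
  have hp2 : L ^ (2 / 5 : ℝ) ≤ L ^ (9 / 10 : ℝ) :=
    Real.rpow_le_rpow_of_exponent_le hL1 (by norm_num)
  have hp4 : l ^ (9 / 10 : ℝ) ≤ L ^ (9 / 10 : ℝ) := Real.rpow_le_rpow hl0.le hlL (by norm_num)
  have hp5 : 1 ≤ L ^ (9 / 10 : ℝ) := Real.one_le_rpow hL1 (by norm_num)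
  have h6 : 0 < Real.exp (L ^ (9 / 10 : ℝ)) := Real.exp_pos _
  constructor
  · have h2 : (z : ℝ) ^ b * q ≤ x := by
      have h3 : (z : ℝ) ^ b ≤ Real.exp (L ^ (9 / 10 : ℝ) / 8) := by
        calc (z : ℝ) ^ b ≤ (Real.exp (l ^ (9 / 10 : ℝ) / (8 * b))) ^ b :=
              pow_le_pow_left₀ hz0 hz b
          _ = Real.exp (l ^ (9 / 10 : ℝ) / 8) := by
            rw [← Real.exp_nat_mul]
            congr 1
            field_simp
          _ ≤ Real.exp (L ^ (9 / 10 : ℝ) / 8) := Real.exp_le_exp.2 (by linarith)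
      have h4 : 2 * Real.exp (L ^ (9 / 10 : ℝ) / 8) ≤ Real.exp (L ^ (9 / 10 : ℝ)) := by
        have h5 : (2 : ℝ) ≤ Real.exp (7 / 8 * L ^ (9 / 10 : ℝ)) := by
          have h61 := Real.add_one_le_exp (7 / 16 * L ^ (9 / 10 : ℝ))
          have h62 : (23 / 16 : ℝ) ≤ Real.exp (7 / 16 * L ^ (9 / 10 : ℝ)) := by linarith
          have h7 : Real.exp (7 / 8 * L ^ (9 / 10 : ℝ)) =
              Real.exp (7 / 16 * L ^ (9 / 10 : ℝ)) * Real.exp (7 / 16 * L ^ (9 / 10 : ℝ)) := by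
            rw [← Real.exp_add]
            congr 1
            ring
          rw [h7]
          have h63 := mul_le_mul h62 h62 (by norm_num) (Real.exp_pos _).le
          linarith
        have h8 : Real.exp (L ^ (9 / 10 : ℝ)) =
            Real.exp (7 / 8 * L ^ (9 / 10 : ℝ)) * Real.exp (L ^ (9 / 10 : ℝ) / 8) := by
          rw [← Real.exp_add]
          congr 1
          ring
        rw [h8]
        exact mul_le_mul_of_nonneg_right h5 (Real.exp_pos _).le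
      have h7 : (z : ℝ) ^ b * q * Real.exp (L ^ (9 / 10 : ℝ)) ≤
          x * Real.exp (L ^ (9 / 10 : ℝ)) := by
        calc (z : ℝ) ^ b * q * Real.exp (L ^ (9 / 10 : ℝ)) =
            (z : ℝ) ^ b * (q * Real.exp (L ^ (9 / 10 : ℝ))) := by ring
          _ ≤ Real.exp (L ^ (9 / 10 : ℝ) / 8) * (2 * x) := by
            apply mul_le_mul h3 hq (by positivity) (Real.exp_pos _).le
          _ = x * (2 * Real.exp (L ^ (9 / 10 : ℝ) / 8)) := by ring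
          _ ≤ x * Real.exp (L ^ (9 / 10 : ℝ)) := mul_le_mul_of_nonneg_left h4 hx0
      exact le_of_mul_le_mul_right h7 h6
    exact_mod_cast h2
  · have h2 : (w : ℝ) * z1 * q ≤ x := by
      have h3 : 2 * (L * (z1 : ℝ)) ≤ Real.exp (L ^ (9 / 10 : ℝ)) := by
        have h4 : l ^ 3 ≤ L ^ 3 := pow_le_pow_left₀ hl0.le hlL 3
        have h5 : (z1 : ℝ) ≤ (8 * lam + 10) * L ^ 3 := by
          have h61 : 1 ≤ L ^ 3 := one_le_pow₀ hL1
          have h62 : (8 * (lam : ℝ) + 9) * 1 ≤ (8 * lam + 9) * L ^ 3 :=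
            mul_le_mul_of_nonneg_left h61 (by linarith)
          have h63 : (8 * (lam : ℝ) + 10) * L ^ 3 = (8 * lam + 9) * L ^ 3 + L ^ 3 := by ring
          rw [h63]
          linarith
        have h6 : L * L ^ 3 ≤ L ^ 5 := by
          have h7 : L * L ^ 3 = L ^ 4 := by ring
          rw [h7]
          exact pow_le_pow_right₀ hL1 (by norm_num)
        calc 2 * (L * (z1 : ℝ)) ≤ 2 * (L * ((8 * lam + 10) * L ^ 3)) := by
              have := mul_le_mul_of_nonneg_left h5 hL0.le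
              linarith
          _ = 2 * (8 * lam + 10) * (L * L ^ 3) := by ring
          _ ≤ 2 * (8 * lam + 10) * L ^ 5 := mul_le_mul_of_nonneg_left h6 (by positivity)
          _ ≤ Real.exp (1 / (16 * b) * L ^ (2 / 5 : ℝ)) := hK2
          _ ≤ Real.exp (L ^ (9 / 10 : ℝ)) := by
            apply Real.exp_le_exp.2
            have h8 : 1 / (16 * (b : ℝ)) ≤ 1 := by
              rw [div_le_one (by positivity)]
              linarith
            have h9 : 0 ≤ L ^ (2 / 5 : ℝ) := Real.rpow_nonneg hL0.le _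
            have h10 := mul_le_mul_of_nonneg_right h8 h9
            linarith
      have h7 : (w : ℝ) * z1 * q * Real.exp (L ^ (9 / 10 : ℝ)) ≤
          x * Real.exp (L ^ (9 / 10 : ℝ)) := by
        calc (w : ℝ) * z1 * q * Real.exp (L ^ (9 / 10 : ℝ)) =
            (w : ℝ) * z1 * (q * Real.exp (L ^ (9 / 10 : ℝ))) := by ring
          _ ≤ L * z1 * (2 * x) := by
            apply mul_le_mul (mul_le_mul_of_nonneg_right hw hz10) hq (by positivity)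
            positivity
          _ = x * (2 * (L * z1)) := by ring
          _ ≤ x * Real.exp (L ^ (9 / 10 : ℝ)) := mul_le_mul_of_nonneg_left h3 hx0
      exact le_of_mul_le_mul_right h7 h6
    exact_mod_cast h2

/-- the sieve bound for one prime `q` which is not exceptional -/
theorem bii_q (lam b : ℕ) (CS CM : ℝ) (hCS0 : 0 < CS)
    (hCS : ∀ (x Q a z1 z w : ℕ) (P P' : Finset ℕ), 8 * lam + 7 ≤ z1 → z1 ≤ z → 1 ≤ Q →
      z ^ b * Q ≤ x → w * z1 * Q ≤ x → P ⊆ PP z1 z → P' ⊆ PP z1 z → (∀ p ∈ P, ¬ p ∣ Q) →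
      (∀ p ∈ P', ¬ p ∣ Q) → ∀ S : Finset ℕ, (∀ k ∈ S, k ≤ x ∧ k % Q = a % Q ∧ lam < k ∧
        Gd lam w k ∧ (∀ p ∈ P, (k - lam).factorization p ≠ 1) ∧ ∀ p ∈ P', ¬ FD lam p k) →
      (S.card : ℝ) ≤ CS * ((x : ℝ) / Q) * (Real.exp (-∑ p ∈ P, 1 / (p : ℝ) -
        ∑ p ∈ P', (1 + (jacobiSym (1 - 4 * (lam : ℤ)) p : ℝ)) / p) + 1 / (z1 : ℝ)))
    (hCM : ∀ u w : ℕ, 2 ≤ u → u ≤ w → |∑ p ∈ PP u w, 1 / (p : ℝ) - LL u w| ≤ CM)
    (hCL2 : ST_CL2) (x q w z z1 : ℕ) (l : ℝ) (hl1 : 1 ≤ l) (hqp : q.Prime) (hzq : z < q)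
    (hz1nat : 8 * lam + 7 ≤ z1) (hz1z : z1 ≤ z) (hzx : z ^ b * q ≤ x) (hwx : w * z1 * q ≤ x)
    (hLL : Real.log l / 2 ≤ LL z1 z) (hz1a : 1 / (z1 : ℝ) ≤ l ^ (-(1 / 4) : ℝ))
    (hne : ∑ p ∈ PP z1 z, (jacobiSym (p : ℤ) q : ℝ) / p ≤ 1) (T : Finset ℕ)
    (hT : ∀ k ∈ T, k ≤ x ∧ Gd lam w k ∧ ArithF lam q k) :
    (T.card : ℝ) ≤ 2 * CS * (Real.exp ((CM + 1) / 2) + 1) * x * l ^ (-(1 / 4) : ℝ) *
      (1 / (q : ℝ)) := by
  classical
  have hl0 : 0 < l := by linarith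
  have hq0 : (0 : ℝ) < q := by exact_mod_cast hqp.pos
  have hx0 : (0 : ℝ) ≤ x := Nat.cast_nonneg _
  obtain ⟨E1, hE1⟩ : ∃ E1 : ℝ, E1 = Real.exp ((CM + 1) / 2) := ⟨_, rfl⟩
  have hE10 : 0 < E1 := by rw [hE1]; exact Real.exp_pos _
  rw [← hE1]
  have hq14 : Real.exp (-(Real.log l / 4)) = l ^ (-(1 / 4) : ℝ) := by
    rw [Real.rpow_def_of_pos hl0]
    congr 1
    ring
  have hl14 : 0 < l ^ (-(1 / 4) : ℝ) := Real.rpow_pos_of_pos hl0 _
  obtain ⟨R, hR, hRk⟩ := hCL2 lam q hqp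
  obtain ⟨P, hP⟩ : ∃ P : Finset ℕ,
      P = (PP z1 z).filter (fun p : ℕ => jacobiSym (p : ℤ) q = -1) := ⟨_, rfl⟩
  have hPsub : P ⊆ PP z1 z := by
    rw [hP]
    exact Finset.filter_subset _ _
  have hPfac : ∀ p ∈ P, p.Prime ∧ p ≤ z ∧ jacobiSym (p : ℤ) q = -1 := by
    intro p hp
    rw [hP, Finset.mem_filter] at hp
    have h1 := hp.1
    unfold PP at h1
    rw [Finset.mem_filter, Finset.mem_Ioc] at h1
    exact ⟨h1.2, h1.1.2, hp.2⟩
  have hsum : (LL z1 z - CM - 1) / 2 ≤ ∑ p ∈ P, 1 / (p : ℝ) := by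
    have h1 := bii_sum (z1 := z1) hqp hzq
    rw [← hP] at h1
    have h2 := hCM z1 z (by omega) hz1z
    rw [abs_le] at h2
    linarith [h2.1]
  have hexpP : Real.exp (-∑ p ∈ P, 1 / (p : ℝ)) ≤ E1 * l ^ (-(1 / 4) : ℝ) := by
    rw [hE1, ← hq14, ← Real.exp_add]
    apply Real.exp_le_exp.2
    linarith
  obtain ⟨B, hB⟩ : ∃ B : ℝ, B = CS * ((x : ℝ) / q) * ((E1 + 1) * l ^ (-(1 / 4) : ℝ)) := ⟨_, rfl⟩
  have hB0 : 0 ≤ B := by
    rw [hB]
    positivity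
  have hcls : ∀ a ∈ R, ((T.filter (fun k => k % q = a)).card : ℝ) ≤ B := by
    intro a _
    have h1 := hCS x q a z1 z w P ∅ hz1nat hz1z hqp.one_lt.le hzx hwx hPsub
      (Finset.empty_subset _) ?_ (by simp) (T.filter (fun k => k % q = a)) ?_
    · refine h1.trans ?_
      rw [hB]
      apply mul_le_mul_of_nonneg_left _ (by positivity)
      rw [Finset.sum_empty, sub_zero]
      have h2 : (E1 + 1) * l ^ (-(1 / 4) : ℝ) =
        E1 * l ^ (-(1 / 4) : ℝ) + l ^ (-(1 / 4) : ℝ) := by ring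
      rw [h2]
      exact add_le_add hexpP hz1a
    · intro p hp hpq
      obtain ⟨hpp, hpz, -⟩ := hPfac p hp
      have := (Nat.prime_dvd_prime_iff_eq hpp hqp).1 hpq
      omega
    · intro k hk
      rw [Finset.mem_filter] at hk
      obtain ⟨hk1, hk2⟩ := hk
      obtain ⟨hkx, hkG, hkA⟩ := hT k hk1
      refine ⟨hkx, by rw [← hk2, Nat.mod_mod], (bii_class hkA).2.1, hkG, ?_, by simp⟩
      intro p hp
      obtain ⟨hpp, hpz, hpj⟩ := hPfac p hp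
      exact bii_fact hkA hpp (by omega) hpj
  have hsub : T ⊆ R.biUnion (fun a => T.filter (fun k => k % q = a)) := by
    intro k hk
    rw [Finset.mem_biUnion]
    refine ⟨k % q, hRk k (bii_class (hT k hk).2.2).1, ?_⟩
    rw [Finset.mem_filter]
    exact ⟨hk, rfl⟩
  have hcard : (T.card : ℝ) ≤ ∑ a ∈ R, ((T.filter (fun k => k % q = a)).card : ℝ) := by
    have h1 := (Finset.card_le_card hsub).trans Finset.card_biUnion_le
    exact_mod_cast h1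
  have hR2 : (R.card : ℝ) ≤ 2 := by exact_mod_cast hR
  calc (T.card : ℝ) ≤ ∑ a ∈ R, ((T.filter (fun k => k % q = a)).card : ℝ) := hcard
    _ ≤ ∑ _a ∈ R, B := Finset.sum_le_sum hcls
    _ = R.card * B := by rw [Finset.sum_const, nsmul_eq_mul]
    _ ≤ 2 * B := mul_le_mul_of_nonneg_right hR2 hB0
    _ = 2 * CS * (E1 + 1) * x * l ^ (-(1 / 4) : ℝ) * (1 / (q : ℝ)) := by
      rw [hB]
      ring

theorem st_BII (hMER : ST_MER) (hREC : ST_REC) (hCL2 : ST_CL2) (hTWO : ST_TWO)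
    (hEXQ : ST_EXQ) (hSL : ST_SL) : ST_BII := by
  classical
  intro lam hlam
  obtain ⟨CM, hCM0, hCM⟩ := hMER
  obtain ⟨CR, hCR0, hCR⟩ := hREC
  obtain ⟨b, CS, hb, hCS0, hCS⟩ := hSL lam hlam
  have hb1 : (1 : ℝ) ≤ b := by exact_mod_cast hb
  have hb0 : (0 : ℝ) < b := by linarith
  have hlamR : (1 : ℝ) ≤ lam := by exact_mod_cast hlam
  obtain ⟨M, hM1, hM⟩ := bii_growth (1 / (16 * b)) (2 * (8 * lam + 10)) (by positivity)
  obtain ⟨E1, hE1⟩ : ∃ E1 : ℝ, E1 = Real.exp ((CM + 1) / 2) := ⟨_, rfl⟩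
  have hE10 : 0 < E1 := by rw [hE1]; exact Real.exp_pos _
  have hM0 : 0 < M := by linarith
  refine ⟨16 + 2 * CS * (E1 + 1) * CR + 2 * M ^ (5 / 4 : ℝ), by positivity, ?_⟩
  intro x Q w hx hw hQ hQx S hS
  obtain ⟨l, hl⟩ : ∃ l : ℝ, l = Real.log Q := ⟨_, rfl⟩
  obtain ⟨L, hL⟩ : ∃ L : ℝ, L = Real.log x := ⟨_, rfl⟩
  rw [← hl]
  rw [← hL] at hw hQx
  have hQR : (2 : ℝ) ≤ Q := by exact_mod_cast hQ
  have hQ0 : (0 : ℝ) < Q := by linarith
  have hxR : (16 : ℝ) ≤ x := by exact_mod_cast hx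
  have hx0 : (0 : ℝ) < x := by linarith
  have hl0 : 0 < l := by
    rw [hl]
    exact Real.log_pos (by linarith)
  have hel : Real.exp l = Q := by rw [hl]; exact Real.exp_log hQ0
  have heL : Real.exp L = x := by rw [hL]; exact Real.exp_log hx0
  have hScard : (S.card : ℝ) ≤ 2 * x := by
    have h1 : S ⊆ range (x + 1) := by
      intro k hk
      have := (hS k hk).1
      rw [Finset.mem_range]
      omega
    have h2 := Finset.card_le_card h1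
    rw [Finset.card_range] at h2
    have h3 : (S.card : ℝ) ≤ x + 1 := by exact_mod_cast h2
    linarith
  have hpw0 : 0 < l ^ (-(5 / 4) : ℝ) := Real.rpow_pos_of_pos hl0 _
  rcases lt_or_ge l M with hlM | hlM
  · have h1 : 1 ≤ M ^ (5 / 4 : ℝ) * l ^ (-(5 / 4) : ℝ) := by
      rw [Real.rpow_neg hl0.le, ← div_eq_mul_inv, le_div_iff₀ (Real.rpow_pos_of_pos hl0 _), one_mul]
      exact Real.rpow_le_rpow hl0.le hlM.le (by norm_num)
    calc (S.card : ℝ) ≤ 2 * x * 1 := by linarith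
      _ ≤ 2 * x * (M ^ (5 / 4 : ℝ) * l ^ (-(5 / 4) : ℝ)) :=
        mul_le_mul_of_nonneg_left h1 (by positivity)
      _ = 2 * M ^ (5 / 4 : ℝ) * x * l ^ (-(5 / 4) : ℝ) := by ring
      _ ≤ (16 + 2 * CS * (E1 + 1) * CR + 2 * M ^ (5 / 4 : ℝ)) * x * l ^ (-(5 / 4) : ℝ) := by
        refine mul_le_mul_of_nonneg_right (mul_le_mul_of_nonneg_right ?_ hx0.le) hpw0.le
        have : 0 ≤ 2 * CS * (E1 + 1) * CR := by positivity
        linarith
  have hl1 : 1 ≤ l := hM1.trans hlM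
  -- comparison of l and L
  have hexp9 : 1 ≤ Real.exp (L ^ (9 / 10 : ℝ)) := by
    rw [← Real.exp_zero]
    apply Real.exp_le_exp.2
    apply Real.rpow_nonneg
    rw [hL]
    exact Real.log_nonneg (by linarith)
  have hQlex : (Q : ℝ) ≤ x := by
    refine hQx.trans ?_
    exact div_le_self hx0.le hexp9
  have hlL : l ≤ L := by
    rw [hl, hL]
    exact Real.log_le_log hQ0 hQlex
  have hL1 : 1 ≤ L := hl1.trans hlL
  have hK1 := hM l hlM
  have hK2 := hM L (hlM.trans hlL)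
  obtain ⟨z1, z, hz1nat, hz1z, hzY, hz1low, hz1up3, hLL⟩ := bii_par1 lam b hlam hb l hl1 hK1
  obtain ⟨hzQ, hz3⟩ := bii_par2 b Q z z1 hb l hl1 hel hzY hz1z
  have hl3 : 1 ≤ l ^ 3 := one_le_pow₀ hl1
  have hz10 : (0 : ℝ) < z1 := by linarith
  have hz1inv : 1 / (z1 : ℝ) ≤ l ^ (-3 : ℝ) := by
    rw [Real.rpow_neg hl0.le, one_div]
    have h1 : l ^ (3 : ℝ) = l ^ 3 := by
      rw [← Real.rpow_natCast]
      norm_num
    rw [h1]
    exact inv_anti₀ (by positivity) hz1low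
  have hz1a : 1 / (z1 : ℝ) ≤ l ^ (-(1 / 4) : ℝ) :=
    hz1inv.trans (Real.rpow_le_rpow_of_exponent_le hl1 (by norm_num))
  have hz1b : 1 / (z1 : ℝ) ≤ l ^ (-(5 / 4) : ℝ) :=
    hz1inv.trans (Real.rpow_le_rpow_of_exponent_le hl1 (by norm_num))
  have hl14 : 0 < l ^ (-(1 / 4) : ℝ) := Real.rpow_pos_of_pos hl0 _
  -- facts on q
  have hqfac : ∀ q ∈ PP Q (2 * Q), q.Prime ∧ Q < q ∧ q ≤ 2 * Q := by
    intro q hq
    unfold PP at hq
    rw [Finset.mem_filter, Finset.mem_Ioc] at hq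
    exact ⟨hq.2, hq.1.1, hq.1.2⟩
  have hq2 : ∀ q ∈ PP Q (2 * Q), (q : ℝ) * Real.exp (L ^ (9 / 10 : ℝ)) ≤ 2 * x := by
    intro q hq
    have h1 : (q : ℝ) ≤ 2 * Q := by exact_mod_cast (hqfac q hq).2.2
    have h2 : (Q : ℝ) * Real.exp (L ^ (9 / 10 : ℝ)) ≤ x := by
      rwa [le_div_iff₀ (Real.exp_pos _)] at hQx
    calc (q : ℝ) * Real.exp (L ^ (9 / 10 : ℝ)) ≤ 2 * Q * Real.exp (L ^ (9 / 10 : ℝ)) :=
          mul_le_mul_of_nonneg_right h1 (Real.exp_pos _).le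
      _ = 2 * (Q * Real.exp (L ^ (9 / 10 : ℝ))) := by ring
      _ ≤ 2 * x := by linarith
  obtain ⟨T, hT⟩ : ∃ T : ℕ → Finset ℕ, T = fun q => S.filter (fun k => ArithF lam q k) :=
    ⟨_, rfl⟩
  have hTmem : ∀ q k, k ∈ T q ↔ k ∈ S ∧ ArithF lam q k := by
    intro q k
    rw [hT]
    exact Finset.mem_filter
  -- trivial bound
  have hTE : ∀ q ∈ PP Q (2 * Q), ((T q).card : ℝ) ≤ 4 * x / Q := by
    intro q hq
    obtain ⟨hqp, hq1, -⟩ := hqfac q hq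
    have h1 := hTWO lam q x hqp (T q) (fun k hk => by
      have h2 := (hTmem q k).1 hk
      exact ⟨(hS k h2.1).1, (bii_class h2.2).1⟩)
    have h3 : (x : ℝ) / q ≤ x / Q := by
      apply div_le_div_of_nonneg_left hx0.le hQ0
      exact_mod_cast hq1.le
    have h4 : 1 ≤ (x : ℝ) / Q := by
      rw [le_div_iff₀ hQ0]
      linarith
    have h5 : 4 * (x : ℝ) / Q = 4 * (x / Q) := by ring
    rw [h5]
    linarith
  -- sieve bound
  have hTN : ∀ q ∈ PP Q (2 * Q),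
      ¬ (1 < ∑ p ∈ PP z1 z, (jacobiSym (p : ℤ) q : ℝ) / p) →
      ((T q).card : ℝ) ≤ 2 * CS * (E1 + 1) * x * l ^ (-(1 / 4) : ℝ) * (1 / (q : ℝ)) := by
    intro q hq hne
    obtain ⟨hqp, hq1, -⟩ := hqfac q hq
    obtain ⟨hzx, hwx⟩ := bii_par3 b lam x q w z z1 hb l L hl1 hlL hK2 hzY hz1up3 hw (hq2 q hq)
    rw [hE1]
    refine bii_q lam b CS CM hCS0 hCS hCM hCL2 x q w z z1 l hl1 hqp (by omega) hz1nat hz1z
      hzx hwx hLL hz1a (not_lt.1 hne) (T q) ?_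
    intro k hk
    rw [hTmem] at hk
    obtain ⟨hkx, hkG, -⟩ := hS k hk.1
    exact ⟨hkx, hkG, hk.2⟩
  -- exceptional primes
  obtain ⟨E, hE⟩ : ∃ E : Finset ℕ, E = (PP Q (2 * Q)).filter
      (fun q : ℕ => 1 < ∑ p ∈ PP z1 z, (jacobiSym (p : ℤ) q : ℝ) / p) := ⟨_, rfl⟩
  have hEcard : (E.card : ℝ) ≤ 4 * (Q / z1) := by
    have h1 := hEXQ Q z1 z (by omega) hz1z hzQ E (fun q hq => by
      rw [hE, Finset.mem_filter] at hq
      exact hq)
    have h2 : (z : ℝ) ^ 2 ≤ Q / z1 := by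
      rw [le_div_iff₀ hz10]
      exact hz3
    linarith
  have hcover : S ⊆ (PP Q (2 * Q)).biUnion T := by
    intro k hk
    obtain ⟨-, -, q, hq, hA⟩ := hS k hk
    rw [Finset.mem_biUnion]
    exact ⟨q, hq, (hTmem q k).2 ⟨hk, hA⟩⟩
  have hcardS : (S.card : ℝ) ≤ ∑ q ∈ PP Q (2 * Q), ((T q).card : ℝ) := by
    have h1 := (Finset.card_le_card hcover).trans Finset.card_biUnion_le
    exact_mod_cast h1
  have hpart1 : ∑ q ∈ E, ((T q).card : ℝ) ≤ 16 * x * l ^ (-(5 / 4) : ℝ) := by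
    calc ∑ q ∈ E, ((T q).card : ℝ) ≤ ∑ _q ∈ E, 4 * (x : ℝ) / Q := by
          refine Finset.sum_le_sum fun q hq => hTE q ?_
          rw [hE, Finset.mem_filter] at hq
          exact hq.1
      _ = E.card * (4 * (x : ℝ) / Q) := by rw [Finset.sum_const, nsmul_eq_mul]
      _ ≤ 4 * (Q / z1) * (4 * (x : ℝ) / Q) :=
        mul_le_mul_of_nonneg_right hEcard (by positivity)
      _ = 16 * x * (1 / z1) := by
        field_simp
        ring
      _ ≤ 16 * x * l ^ (-(5 / 4) : ℝ) := mul_le_mul_of_nonneg_left hz1b (by positivity)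
  have hpart2 : ∑ q ∈ (PP Q (2 * Q)).filter
      (fun q : ℕ => ¬ (1 < ∑ p ∈ PP z1 z, (jacobiSym (p : ℤ) q : ℝ) / p)), ((T q).card : ℝ) ≤
      2 * CS * (E1 + 1) * CR * x * l ^ (-(5 / 4) : ℝ) := by
    have h0 : 0 ≤ 2 * CS * (E1 + 1) * x * l ^ (-(1 / 4) : ℝ) := by positivity
    have h54 : l ^ (-(1 / 4) : ℝ) / l = l ^ (-(5 / 4) : ℝ) := by
      rw [← Real.rpow_sub_one hl0.ne']
      norm_num
    calc ∑ q ∈ (PP Q (2 * Q)).filter
          (fun q : ℕ => ¬ (1 < ∑ p ∈ PP z1 z, (jacobiSym (p : ℤ) q : ℝ) / p)), ((T q).card : ℝ)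
        ≤ ∑ q ∈ (PP Q (2 * Q)).filter
          (fun q : ℕ => ¬ (1 < ∑ p ∈ PP z1 z, (jacobiSym (p : ℤ) q : ℝ) / p)),
            2 * CS * (E1 + 1) * x * l ^ (-(1 / 4) : ℝ) * (1 / (q : ℝ)) := by
          refine Finset.sum_le_sum fun q hq => ?_
          rw [Finset.mem_filter] at hq
          exact hTN q hq.1 hq.2
      _ ≤ ∑ q ∈ PP Q (2 * Q), 2 * CS * (E1 + 1) * x * l ^ (-(1 / 4) : ℝ) * (1 / (q : ℝ)) := by
          refine Finset.sum_le_sum_of_subset_of_nonneg (Finset.filter_subset _ _) ?_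
          intro q _ _
          positivity
      _ = 2 * CS * (E1 + 1) * x * l ^ (-(1 / 4) : ℝ) * ∑ q ∈ PP Q (2 * Q), 1 / (q : ℝ) := by
          rw [Finset.mul_sum]
      _ ≤ 2 * CS * (E1 + 1) * x * l ^ (-(1 / 4) : ℝ) * (CR / l) := by
          have h1 := hCR Q hQ
          rw [← hl] at h1
          exact mul_le_mul_of_nonneg_left h1 h0
      _ = 2 * CS * (E1 + 1) * CR * x * (l ^ (-(1 / 4) : ℝ) / l) := by ring
      _ = 2 * CS * (E1 + 1) * CR * x * l ^ (-(5 / 4) : ℝ) := by rw [h54]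
  have hsplit := Finset.sum_filter_add_sum_filter_not (PP Q (2 * Q))
    (fun q : ℕ => 1 < ∑ p ∈ PP z1 z, (jacobiSym (p : ℤ) q : ℝ) / p)
    (fun q => ((T q).card : ℝ))
  rw [← hE] at hsplit
  have hlast : 0 ≤ 2 * M ^ (5 / 4 : ℝ) * x * l ^ (-(5 / 4) : ℝ) := by positivity
  calc (S.card : ℝ) ≤ ∑ q ∈ PP Q (2 * Q), ((T q).card : ℝ) := hcardS
    _ ≤ 16 * x * l ^ (-(5 / 4) : ℝ) + 2 * CS * (E1 + 1) * CR * x * l ^ (-(5 / 4) : ℝ) := by
      linarith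
    _ ≤ (16 + 2 * CS * (E1 + 1) * CR + 2 * M ^ (5 / 4 : ℝ)) * x * l ^ (-(5 / 4) : ℝ) := by
      have h1 : (16 + 2 * CS * (E1 + 1) * CR + 2 * M ^ (5 / 4 : ℝ)) * x * l ^ (-(5 / 4) : ℝ) =
        16 * x * l ^ (-(5 / 4) : ℝ) + 2 * CS * (E1 + 1) * CR * x * l ^ (-(5 / 4) : ℝ) +
          2 * M ^ (5 / 4 : ℝ) * x * l ^ (-(5 / 4) : ℝ) := by ring
      linarith

end Pool.Agent.Helper17.FP
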