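import Pool.Agent.Helper44.FP.Lib
import Pool.Agent.Helper44.FP.Stmts

set_option autoImplicit false

/-!
# MP_401a3a_an, module ABS
-/

namespace Pool.Agent.Helper78.FP

open Pool.Agent.Helper44.FP
open scoped Topology

universe u v

section basic

variable {A : Type u} [CStarAlgebra A] [PartialOrder A] [StarOrderedRing A]

theorem algMap_isSelfAdjoint (r : ℝ) : IsSelfAdjoint (algebraMap ℝ A r) := by
  rw [Algebra.algebraMap_eq_smul_one, IsSelfAdjoint, star_smul, star_one, star_trivial]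

theorem isSelfAdjoint_of_nonneg {a : A} (h : 0 ≤ a) : IsSelfAdjoint a := IsSelfAdjoint.of_nonneg h

theorem norm_le_of_abs {D : A} {r : ℝ} (hr : 0 ≤ r) (h1 : D ≤ algebraMap ℝ A r)
    (h2 : -algebraMap ℝ A r ≤ D) : ‖D‖ ≤ r := by
  have e1 : 0 ≤ algebraMap ℝ A r - D := sub_nonneg.2 h1
  have e2 : 0 ≤ algebraMap ℝ A r + D := by
    have := sub_nonneg.2 h2
    rwa [sub_neg_eq_add, add_comm] at this
  have hD : IsSelfAdjoint D := by
    have e : D = algebraMap ℝ A r - (algebraMap ℝ A r - D) := by abel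
    rw [e]
    exact (algMap_isSelfAdjoint r).sub (isSelfAdjoint_of_nonneg e1)
  have hc : Commute (algebraMap ℝ A r - D) (algebraMap ℝ A r + D) := by
    have h := Algebra.commutes r D
    change (algebraMap ℝ A r - D) * (algebraMap ℝ A r + D) =
      (algebraMap ℝ A r + D) * (algebraMap ℝ A r - D)
    rw [sub_mul, mul_add, mul_add, mul_sub, add_mul, add_mul, h]
  have e3 := Commute.mul_nonneg e1 e2 hc
  have e4 : (algebraMap ℝ A r - D) * (algebraMap ℝ A r + D) = algebraMap ℝ A (r ^ 2) - D * D := by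
    have h := Algebra.commutes r D
    rw [sub_mul, mul_add, mul_add, h, sq, map_mul]
    abel
  rw [e4, sub_nonneg] at e3
  have e5 : 0 ≤ D * D := hD.mul_self_nonneg
  have e6 : ‖D * D‖ ≤ r ^ 2 := (CStarAlgebra.norm_le_iff_le_algebraMap _ (sq_nonneg r) e5).2 e3
  rw [hD.norm_mul_self] at e6
  exact le_of_sq_le_sq (by rw [sq ‖D‖]; rwa [← sq ‖D‖]) hr

theorem one_sub_norm_le {z : A} (h0 : 0 ≤ z) (h1 : z ≤ 1) : ‖(1 : A) - z‖ ≤ 1 := by
  have e1 : 0 ≤ 1 - z := sub_nonneg.2 h1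
  rw [CStarAlgebra.norm_le_one_iff_of_nonneg _ e1]
  exact sub_le_self _ h0

theorem sqrt_absorb {p c : A} (hc : 0 ≤ c) (h : p * c = c) :
    p * CFC.sqrt c = CFC.sqrt c := by
  have hs : CFC.sqrt c * CFC.sqrt c = c := CFC.sqrt_mul_sqrt_self c hc
  have hsa : star (CFC.sqrt c) = CFC.sqrt c :=
    (isSelfAdjoint_of_nonneg (CFC.sqrt_nonneg c)).star_eq
  have h0 : (1 - p) * CFC.sqrt c = 0 := by
    rw [← norm_eq_zero, ← sq_eq_zero_iff, sq, ← CStarRing.norm_self_mul_star, star_mul, hsa]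
    have e : (1 - p) * CFC.sqrt c * (CFC.sqrt c * star (1 - p)) =
        ((1 - p) * c) * star (1 - p) := by
      rw [← mul_assoc, mul_assoc (1 - p), hs]
    rw [e, sub_mul, one_mul, h, sub_self, zero_mul, norm_zero]
  rw [sub_mul, one_mul, sub_eq_zero] at h0
  exact h0.symm

end basic

section pieces

theorem algm_apply {X : Type v} [TopologicalSpace X] (b : ℝ) (w : X) :
    (algebraMap ℝ C(X, ℝ) b) w = b := by
  simp

variable {A : Type u} [CStarAlgebra A] [PartialOrder A] [StarOrderedRing A]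
  {X : Type v} [TopologicalSpace X] [CompactSpace X]

/-- the element `c` -/
noncomputable def cEl (φ : C(X, ℝ) →⋆ₐ[ℝ] A) (z : A) (r : C(X, ℝ)) : A :=
  star ((1 - z) * φ r) * ((1 - z) * φ r)

theorem cEl_nonneg (φ : C(X, ℝ) →⋆ₐ[ℝ] A) (z : A) (r : C(X, ℝ)) : 0 ≤ cEl φ z r :=
  star_mul_self_nonneg _

theorem cEl_eq (φ : C(X, ℝ) →⋆ₐ[ℝ] A) {z : A} (hz : 0 ≤ z) (r : C(X, ℝ)) :
    cEl φ z r = φ r * ((1 - z) * ((1 - z) * φ r)) := by
  have h1 : star (1 - z) = 1 - z := by
    rw [star_sub, star_one, (isSelfAdjoint_of_nonneg hz).star_eq]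
  rw [cEl, star_mul, (hom_isSelfAdjoint φ r).star_eq, h1, mul_assoc]

theorem cEl_le_one (φ : C(X, ℝ) →⋆ₐ[ℝ] A) {z : A} (h0 : 0 ≤ z) (h1 : z ≤ 1) {r : C(X, ℝ)}
    (hr0 : 0 ≤ r) (hr1 : r ≤ 1) : cEl φ z r ≤ 1 := by
  rw [← CStarAlgebra.norm_le_one_iff_of_nonneg _ (cEl_nonneg φ z r), cEl,
    CStarRing.norm_star_mul_self]
  have h2 : ‖(1 - z) * φ r‖ ≤ 1 := by
    refine (norm_mul_le _ _).trans ?_
    have h3 : ‖φ r‖ ≤ 1 := hom_norm_le φ r zero_le_one fun x => by
      rw [abs_of_nonneg (show (0 : ℝ) ≤ r x from hr0 x)]; exact hr1 x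
    calc ‖1 - z‖ * ‖φ r‖ ≤ 1 * 1 :=
          mul_le_mul (one_sub_norm_le h0 h1) h3 (norm_nonneg _) zero_le_one
      _ = 1 := one_mul 1
  exact mul_le_one₀ h2 (norm_nonneg _) h2

theorem cEl_absorb (φ : C(X, ℝ) →⋆ₐ[ℝ] A) {z : A} (hz : 0 ≤ z) {r p : C(X, ℝ)}
    (h : p * r = r) : φ p * cEl φ z r = cEl φ z r := by
  rw [cEl_eq φ hz, ← mul_assoc, ← map_mul, h]

theorem t_cEl {t : A → ℝ} (ht : IsTr t) (φ : C(X, ℝ) →⋆ₐ[ℝ] A) {z : A} (h0 : 0 ≤ z)
    {r : C(X, ℝ)} (hr0 : 0 ≤ r) (hr1 : r ≤ 1) :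
    t (φ (r * r)) - 2 * t z ≤ t (cEl φ z r) := by
  have hrr0 : 0 ≤ φ (r * r) := hom_nonneg φ (mul_nonneg hr0 hr0)
  have hrr1 : φ (r * r) ≤ 1 := hom_le_one φ (mul_le_one₀ hr1 hr0 hr1)
  have hsz := (isSelfAdjoint_of_nonneg h0).star_eq
  have e1 : t (cEl φ z r) = t ((1 - z) * φ (r * r) * (1 - z)) := by
    have h1 : star (1 - z) = 1 - z := by rw [star_sub, star_one, hsz]
    rw [cEl, ht.comm, star_mul, (hom_isSelfAdjoint φ r).star_eq, h1, map_mul]
    congr 1
    simp only [mul_assoc]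
  have e2 : (1 - z) * φ (r * r) * (1 - z) =
      φ (r * r) - z * φ (r * r) - φ (r * r) * z + z * φ (r * r) * z := by
    rw [sub_mul, sub_mul, mul_sub, mul_sub, one_mul, mul_one, mul_one]
    abel
  have e3 : 0 ≤ t (z * φ (r * r) * z) := by
    refine ht.pos_of_nonneg ?_
    have := star_left_conjugate_nonneg hrr0 z
    rwa [hsz] at this
  have e4 : t (z * φ (r * r)) ≤ t z := by
    have h2 := ht.mul_pos h0 (sub_nonneg.2 hrr1)
    rw [mul_sub, mul_one, ht.sub] at h2
    linarith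
  rw [e1, e2, ht.add, ht.sub, ht.sub, ht.comm (φ (r * r)) z]
  linarith

theorem y_sqrt_le (φ : C(X, ℝ) →⋆ₐ[ℝ] A) {y z : A} (hy0 : 0 ≤ y) (hy1 : y ≤ 1) (hz0 : 0 ≤ z)
    (hyz : y * z = y) (r : C(X, ℝ)) :
    ‖y * CFC.sqrt (cEl φ z r)‖ ≤ ‖z * φ r - φ r * z‖ := by
  have hsy := (isSelfAdjoint_of_nonneg hy0).star_eq
  have hsz := (isSelfAdjoint_of_nonneg hz0).star_eq
  have hzy : z * y = y := by
    have := congrArg star hyz
    rwa [star_mul, hsy, hsz] at this
  have hs : CFC.sqrt (cEl φ z r) * CFC.sqrt (cEl φ z r) = cEl φ z r :=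
    CFC.sqrt_mul_sqrt_self _ (cEl_nonneg φ z r)
  have hsa : star (CFC.sqrt (cEl φ z r)) = CFC.sqrt (cEl φ z r) :=
    (isSelfAdjoint_of_nonneg (CFC.sqrt_nonneg _)).star_eq
  have hyn : ‖y‖ ≤ 1 := (CStarAlgebra.norm_le_one_iff_of_nonneg _ hy0).2 hy1
  have e1 : ‖y * CFC.sqrt (cEl φ z r)‖ * ‖y * CFC.sqrt (cEl φ z r)‖ =
      ‖(1 - z) * φ r * y‖ * ‖(1 - z) * φ r * y‖ := by
    rw [← CStarRing.norm_self_mul_star, ← CStarRing.norm_star_mul_self, star_mul, hsa, hsy]
    congr 1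
    calc y * CFC.sqrt (cEl φ z r) * (CFC.sqrt (cEl φ z r) * y)
        = y * (CFC.sqrt (cEl φ z r) * CFC.sqrt (cEl φ z r)) * y := by simp only [mul_assoc]
      _ = y * (star ((1 - z) * φ r) * ((1 - z) * φ r)) * y := by rw [hs, cEl]
      _ = _ := by rw [star_mul _ y, hsy]; simp only [mul_assoc]
  have e2 : ‖y * CFC.sqrt (cEl φ z r)‖ = ‖(1 - z) * φ r * y‖ :=
    (mul_self_inj (norm_nonneg _) (norm_nonneg _)).1 e1
  have e3 : (1 - z) * φ r * y = -((z * φ r - φ r * z) * y) := by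
    rw [sub_mul, sub_mul, sub_mul, one_mul, mul_assoc (φ r) z y, hzy]
    abel
  rw [e2, e3, norm_neg]
  refine (norm_mul_le _ _).trans ?_
  calc ‖z * φ r - φ r * z‖ * ‖y‖ ≤ ‖z * φ r - φ r * z‖ * 1 :=
        mul_le_mul_of_nonneg_left hyn (norm_nonneg _)
    _ = _ := mul_one _

/-- `x* (φ f - a) x` is between `-ω x* x` and `ω x* x` if `f` is close to `a` on the support -/
theorem osc_le (φ : C(X, ℝ) →⋆ₐ[ℝ] A) {p f : C(X, ℝ)} {a ω : ℝ}
    (h : ∀ w, p w ≠ 0 → |f w - a| ≤ ω) {x : A} (hx : φ p * x = x) :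
    star x * φ f * x - a • (star x * x) ≤ ω • (star x * x) ∧
      -(ω • (star x * x)) ≤ star x * φ f * x - a • (star x * x) := by
  have hsp := (hom_isSelfAdjoint φ p).star_eq
  have hx' : star x * φ p = star x := by
    have := congrArg star hx
    rwa [star_mul, hsp] at this
  have key : ∀ g : C(X, ℝ), star x * φ g * x = star x * φ (p * g * p) * x := by
    intro g
    rw [map_mul, map_mul]
    calc star x * φ g * x = (star x * φ p) * φ g * (φ p * x) := by rw [hx, hx']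
      _ = _ := by simp only [mul_assoc]
  have e1 : ∀ b : ℝ, b • (star x * x) = star x * φ (p * (algebraMap ℝ C(X, ℝ) b) * p) * x := by
    intro b
    rw [← key, AlgHomClass.commutes, Algebra.algebraMap_eq_smul_one, mul_smul_comm, mul_one,
      smul_mul_assoc]
  have mono : ∀ g g' : C(X, ℝ), g ≤ g' → star x * φ g * x ≤ star x * φ g' * x := fun g g' hg =>
    star_left_conjugate_le_conjugate (hom_mono φ hg) x
  constructor
  · rw [sub_le_iff_le_add, ← add_smul, key, e1]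
    refine mono _ _ fun w => ?_
    change p w * f w * p w ≤ p w * (algebraMap ℝ C(X, ℝ) (ω + a)) w * p w
    rw [algm_apply]
    by_cases hw : p w = 0
    · simp [hw]
    · have h1 := (abs_le.1 (h w hw)).2
      nlinarith [mul_self_nonneg (p w)]
  · rw [neg_le_sub_iff_le_add, ← sub_nonneg]
    have e2 : star x * φ f * x + ω • (star x * x) - a • (star x * x) =
        star x * φ f * x - (a - ω) • (star x * x) := by
      rw [sub_smul]; abel
    rw [e2, sub_nonneg, key f, e1]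
    refine mono _ _ fun w => ?_
    change p w * (algebraMap ℝ C(X, ℝ) (a - ω)) w * p w ≤ p w * f w * p w
    rw [algm_apply]
    by_cases hw : p w = 0
    · simp [hw]
    · have h1 := (abs_le.1 (h w hw)).1
      nlinarith [mul_self_nonneg (p w)]

/-- the sum over the pieces of one homomorphism -/
theorem assemble (φ σ : C(X, ℝ) →⋆ₐ[ℝ] A) {y : A} (hy0 : 0 ≤ y) (hy1 : y ≤ 1) {J : ℕ}
    (q : Fin J → C(X, ℝ)) (hq : ∑ j, q j ^ 2 = 1) (x : Fin J → A) (p : Fin J → C(X, ℝ))
    (hp : ∀ j, φ (p j) * x j = x j) (hpp : ∀ i j, i ≠ j → p i * p j = 0) (a : Fin J → ℝ)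
    (f : C(X, ℝ)) {M ω ε : ℝ} (hM : ∀ j, |a j| ≤ M) (hM0 : 0 ≤ M) (hω : 0 ≤ ω) (hε : 0 ≤ ε)
    (hop : ∀ j w, p j w ≠ 0 → |f w - a j| ≤ ω) (hoq : ∀ j w, q j w ≠ 0 → |f w - a j| ≤ ω)
    (hx : ∀ j, ‖star (x j) * x j - y * σ (q j ^ 2) * y‖ ≤ ε) :
    ‖star (∑ j, x j) * φ f * (∑ j, x j) - y * σ f * y‖ ≤
      ω * (1 + J * ε) + J * (M * ε) + ω := by
  have hyn : ‖y‖ ≤ 1 := (CStarAlgebra.norm_le_one_iff_of_nonneg _ hy0).2 hy1
  have hxp : ∀ j, star (x j) * φ (p j) = star (x j) := by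
    intro j
    have := congrArg star (hp j)
    rwa [star_mul, (hom_isSelfAdjoint φ (p j)).star_eq] at this
  have hcross : ∀ i j, i ≠ j → star (x i) * φ f * x j = 0 := by
    intro i j hij
    calc star (x i) * φ f * x j = (star (x i) * φ (p i)) * φ f * (φ (p j) * x j) := by
          rw [hxp, hp]
      _ = star (x i) * φ (p i * f * p j) * x j := by
          rw [map_mul, map_mul]; simp only [mul_assoc]
      _ = 0 := by
          have : p i * f * p j = 0 := by
            rw [mul_right_comm, hpp i j hij, zero_mul]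
          rw [this, map_zero, mul_zero, zero_mul]
  have hexp : star (∑ j, x j) * φ f * (∑ j, x j) = ∑ j, star (x j) * φ f * x j := by
    rw [star_sum, Finset.sum_mul, Finset.sum_mul]
    refine Finset.sum_congr rfl fun i _ => ?_
    rw [Finset.mul_sum, Finset.sum_eq_single i]
    · intro j _ hj
      exact hcross i j (Ne.symm hj)
    · intro h; exact absurd (Finset.mem_univ _) h
  -- sums of the squares
  have hb : ∑ j, y * σ (q j ^ 2) * y = y * y := by
    rw [← Finset.sum_mul, ← Finset.mul_sum, ← map_sum, hq, map_one, mul_one]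
  set S : A := ∑ j, star (x j) * x j with hS
  have hS0 : 0 ≤ S := Finset.sum_nonneg fun j _ => star_mul_self_nonneg _
  have hSn : ‖S‖ ≤ 1 + J * ε := by
    have e : S = y * y + ∑ j, (star (x j) * x j - y * σ (q j ^ 2) * y) := by
      rw [Finset.sum_sub_distrib, hb]; abel
    rw [e]
    refine (norm_add_le _ _).trans (add_le_add ?_ ?_)
    · refine (norm_mul_le _ _).trans ?_
      exact mul_le_one₀ hyn (norm_nonneg _) hyn
    · refine (norm_sum_le _ _).trans ((Finset.sum_le_sum fun j _ => hx j).trans (le_of_eq ?_))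
      simp
  have hSr : S ≤ algebraMap ℝ A (1 + J * ε) :=
    (CStarAlgebra.norm_le_iff_le_algebraMap _ (by positivity) hS0).1 hSn
  have hωS : ω • S ≤ algebraMap ℝ A (ω * (1 + J * ε)) := by
    rw [map_mul, ← Algebra.smul_def]
    exact smul_le_smul_of_nonneg_left hSr hω
  -- the three parts
  have hD : ‖∑ j, (star (x j) * φ f * x j - a j • (star (x j) * x j))‖ ≤ ω * (1 + J * ε) := by
    have e : ω • S = ∑ j, ω • (star (x j) * x j) := by rw [hS, Finset.smul_sum]
    refine norm_le_of_abs (by positivity) ?_ ?_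
    · refine le_trans ?_ hωS
      rw [e]
      exact Finset.sum_le_sum fun j _ => (osc_le φ (hop j) (hp j)).1
    · refine le_trans (neg_le_neg hωS) ?_
      rw [e, ← Finset.sum_neg_distrib]
      exact Finset.sum_le_sum fun j _ => (osc_le φ (hop j) (hp j)).2
  have hE : ‖∑ j, a j • (star (x j) * x j - y * σ (q j ^ 2) * y)‖ ≤ J * (M * ε) := by
    refine (norm_sum_le _ _).trans ?_
    have h1 : ∀ j ∈ Finset.univ, ‖a j • (star (x j) * x j - y * σ (q j ^ 2) * y)‖ ≤ M * ε := by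
      intro j _
      rw [norm_smul, Real.norm_eq_abs]
      exact mul_le_mul (hM j) (hx j) (norm_nonneg _) hM0
    refine (Finset.sum_le_sum h1).trans (le_of_eq ?_)
    simp
  have hF : ‖(∑ j, a j • (y * σ (q j ^ 2) * y)) - y * σ f * y‖ ≤ ω := by
    have e : (∑ j, a j • (y * σ (q j ^ 2) * y)) - y * σ f * y =
        y * σ ((∑ j, a j • q j ^ 2) - f) * y := by
      rw [map_sub, map_sum, mul_sub, sub_mul, Finset.mul_sum, Finset.sum_mul]
      congr 1
      refine Finset.sum_congr rfl fun j _ => ?_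
      rw [map_smul, mul_smul_comm, smul_mul_assoc]
    rw [e]
    have h1 : ‖σ ((∑ j, a j • q j ^ 2) - f)‖ ≤ ω := by
      refine hom_norm_le σ _ hω fun w => ?_
      have hqw : ∑ j, q j w ^ 2 = 1 := by
        have := congrArg (fun g : C(X, ℝ) => g w) hq
        simpa using this
      have e2 : ((∑ j, a j • q j ^ 2) - f) w = ∑ j, (a j - f w) * q j w ^ 2 := by
        have : ∑ j, (a j - f w) * q j w ^ 2 = (∑ j, a j * q j w ^ 2) - f w * ∑ j, q j w ^ 2 := by
          rw [Finset.mul_sum, ← Finset.sum_sub_distrib]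
          exact Finset.sum_congr rfl fun j _ => by ring
        rw [this, hqw]
        simp
      rw [e2]
      refine (Finset.abs_sum_le_sum_abs _ _).trans ?_
      have h2 : ∀ j ∈ Finset.univ, |(a j - f w) * q j w ^ 2| ≤ ω * q j w ^ 2 := by
        intro j _
        rw [abs_mul, abs_of_nonneg (sq_nonneg (q j w))]
        by_cases h : q j w = 0
        · simp [h]
        · refine mul_le_mul_of_nonneg_right ?_ (sq_nonneg _)
          rw [abs_sub_comm]
          exact hoq j w h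
      refine (Finset.sum_le_sum h2).trans ?_
      rw [← Finset.mul_sum, hqw, mul_one]
    calc ‖y * σ ((∑ j, a j • q j ^ 2) - f) * y‖
        ≤ ‖y‖ * ‖σ ((∑ j, a j • q j ^ 2) - f)‖ * ‖y‖ :=
          (norm_mul_le _ _).trans (mul_le_mul_of_nonneg_right (norm_mul_le _ _) (norm_nonneg _))
      _ ≤ 1 * ω * 1 := by gcongr
      _ = ω := by ring
  have htot : star (∑ j, x j) * φ f * (∑ j, x j) - y * σ f * y =
      (∑ j, (star (x j) * φ f * x j - a j • (star (x j) * x j))) +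
      (∑ j, a j • (star (x j) * x j - y * σ (q j ^ 2) * y)) +
      ((∑ j, a j • (y * σ (q j ^ 2) * y)) - y * σ f * y) := by
    rw [hexp, Finset.sum_sub_distrib]
    simp only [smul_sub, Finset.sum_sub_distrib]
    abel
  rw [htot]
  exact (norm_add_le _ _).trans (add_le_add ((norm_add_le _ _).trans (add_le_add hD hE)) hF)

end pieces

section main

open Classical in
theorem ABS_aux (hPART : ST_PART.{v}) (hBUMP : ST_BUMP.{v}) : ST_ABS.{u, v} := by
  intro A _ _ _ X _ _ hX t ht hWC φ hφ G ω hω m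
  obtain ⟨M, hM0, hM⟩ : ∃ M : ℝ, 0 ≤ M ∧ ∀ f ∈ G, ‖f‖ ≤ M :=
    ⟨∑ f ∈ G, ‖f‖, Finset.sum_nonneg fun f _ => norm_nonneg f, fun f hf =>
      Finset.single_le_sum (f := fun f : C(X, ℝ) => ‖f‖) (fun f _ => norm_nonneg f) hf⟩
  obtain ⟨J, q, x, hq01, hq1, hqo⟩ := hPART X G (ω / 4) (by positivity)
  obtain ⟨κ, κp, hκ, hκo, hκd⟩ := hBUMP X hX G (ω / 4) (by positivity) J m x
  set r : Fin m → Fin J → C(X, ℝ) := fun k j => ⟨fun w => √(κ k j w), by fun_prop⟩ with hr
  have hr0 : ∀ k j, 0 ≤ r k j := fun k j w => Real.sqrt_nonneg _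
  have hr1 : ∀ k j, r k j ≤ 1 := fun k j w => by
    change √(κ k j w) ≤ 1
    rw [Real.sqrt_le_one]
    exact (hκ k j).2.1 w
  have hrr : ∀ k j, r k j * r k j = κ k j := fun k j => by
    ext w
    exact Real.mul_self_sqrt ((hκ k j).1 w)
  have hκr : ∀ k j, κp k j * r k j = r k j := fun k j => by
    ext w
    change κp k j w * √(κ k j w) = √(κ k j w)
    have h1 : κp k j w * κ k j w = κ k j w := by
      have := congrArg (fun g : C(X, ℝ) => g w) (hκ k j).2.2.2.2.2
      exact this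
    by_cases h : κ k j w = 0
    · rw [h]; simp
    · have : κp k j w = 1 := by
        have h2 : (κp k j w - 1) * κ k j w = 0 := by linarith
        rcases mul_eq_zero.1 h2 with h3 | h3
        · linarith
        · exact absurd h3 h
      rw [this, one_mul]
  obtain ⟨δ, hδ, hδ'⟩ : ∃ δ : ℝ, 0 < δ ∧ ∀ k j, 2 * δ ≤ t (φ (κ k j)) := by
    have hpos : ∀ k j, 0 < t (φ (κ k j)) := fun k j => hφ _ (hκ k j).1 (hκ k j).2.2.1
    rcases isEmpty_or_nonempty (Fin m × Fin J) with he | hne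
    · exact ⟨1, one_pos, fun k j => (he.false (k, j)).elim⟩
    · obtain ⟨⟨k0, j0⟩, hmin⟩ := Finite.exists_min fun kj : Fin m × Fin J => t (φ (κ kj.1 kj.2))
      refine ⟨t (φ (κ k0 j0)) / 2, half_pos (hpos _ _), fun k j => ?_⟩
      have := hmin (k, j)
      simp only at this
      linarith
  set ε : ℝ := ω / (4 * (J + 1) * (ω + M + 1)) with hε
  have hε0 : 0 < ε := by positivity
  obtain ⟨θ1, hθ1, K, hK, hR⟩ := hWC ε hε0 δ hδ
  set θ : ℝ := min θ1 (min (δ / 2) (ω / (J * K + 1))) with hθ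
  have hθ0 : 0 < θ := lt_min hθ1 (lt_min (half_pos hδ) (by positivity))
  have hθa : θ ≤ θ1 := min_le_left _ _
  have hθb : θ ≤ δ / 2 := (min_le_right _ _).trans (min_le_left _ _)
  have hθc : θ ≤ ω / (J * K + 1) := (min_le_right _ _).trans (min_le_right _ _)
  refine ⟨θ, (Finset.univ : Finset (Fin m × Fin J)).image (fun kj => r kj.1 kj.2), hθ0,
    fun y z hy0 hy1 hz0 hz1 hyz htz hcomm σ => ?_⟩
  have hcomm' : ∀ k j, ‖z * φ (r k j) - φ (r k j) * z‖ ≤ θ := fun k j =>
    hcomm _ (Finset.mem_image.2 ⟨(k, j), Finset.mem_univ _, rfl⟩)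
  have hsy := (isSelfAdjoint_of_nonneg hy0).star_eq
  have hsz := (isSelfAdjoint_of_nonneg hz0).star_eq
  have hyn : ‖y‖ ≤ 1 := (CStarAlgebra.norm_le_one_iff_of_nonneg _ hy0).2 hy1
  have hzy : z * y = y := by
    have := congrArg star hyz
    rwa [star_mul, hsy, hsz] at this
  have hR' : ∀ k j, ∃ R : A, ‖R‖ ≤ K ∧
      ‖star R * cEl φ z (r k j) * R - y * σ k (q j ^ 2) * y‖ ≤ ε := by
    intro k j
    have hq2 : 0 ≤ q j ^ 2 := fun w => sq_nonneg _
    have hq2' : q j ^ 2 ≤ 1 := fun w => by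
      change q j w ^ 2 ≤ 1
      exact pow_le_one₀ ((hq01 j).1 w) ((hq01 j).2 w)
    have hb0 : 0 ≤ y * σ k (q j ^ 2) * y := by
      have := star_left_conjugate_nonneg (hom_nonneg (σ k) hq2) y
      rwa [hsy] at this
    have hb1 : y * σ k (q j ^ 2) * y ≤ 1 := by
      rw [← CStarAlgebra.norm_le_one_iff_of_nonneg _ hb0]
      have h1 : ‖σ k (q j ^ 2)‖ ≤ 1 :=
        (CStarAlgebra.norm_le_one_iff_of_nonneg _ (hom_nonneg (σ k) hq2)).2
          (hom_le_one (σ k) hq2')
      calc ‖y * σ k (q j ^ 2) * y‖ ≤ ‖y‖ * ‖σ k (q j ^ 2)‖ * ‖y‖ :=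
            (norm_mul_le _ _).trans (mul_le_mul_of_nonneg_right (norm_mul_le _ _) (norm_nonneg _))
        _ ≤ 1 * 1 * 1 := by gcongr
        _ = 1 := by ring
    have htb : t (y * σ k (q j ^ 2) * y) ≤ θ1 := by
      have e : y * σ k (q j ^ 2) * y = z * (y * σ k (q j ^ 2) * y) * z := by
        calc y * σ k (q j ^ 2) * y = (z * y) * σ k (q j ^ 2) * (y * z) := by rw [hzy, hyz]
          _ = _ := by simp only [mul_assoc]
      have h1 : z * (y * σ k (q j ^ 2) * y) * z ≤ z * z := by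
        have := star_left_conjugate_le_conjugate hb1 z
        rwa [hsz, mul_one] at this
      have h2 : t (z * z) ≤ t z := by
        have h3 := ht.mul_pos hz0 (sub_nonneg.2 hz1)
        rw [mul_sub, mul_one, ht.sub] at h3
        linarith
      rw [e]
      exact (ht.mono h1).trans (h2.trans (htz.trans hθa))
    have htc : δ ≤ t (cEl φ z (r k j)) := by
      have h1 := t_cEl ht φ hz0 (hr0 k j) (hr1 k j)
      rw [hrr] at h1
      have h2 := hδ' k j
      linarith
    exact hR _ _ hb0 hb1 (cEl_nonneg _ _ _) (cEl_le_one φ hz0 hz1 (hr0 k j) (hr1 k j)) htb htc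
  choose R hRn hRe using hR'
  set xx : Fin m → Fin J → A := fun k j => CFC.sqrt (cEl φ z (r k j)) * R k j with hxx
  have hxxp : ∀ k j, φ (κp k j) * xx k j = xx k j := by
    intro k j
    simp only [hxx]
    rw [← mul_assoc, sqrt_absorb (cEl_nonneg _ _ _) (cEl_absorb φ hz0 (hκr k j))]
  have hxxp' : ∀ k j, star (xx k j) * φ (κp k j) = star (xx k j) := by
    intro k j
    have := congrArg star (hxxp k j)
    rwa [star_mul, (hom_isSelfAdjoint φ (κp k j)).star_eq] at this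
  have hxx2 : ∀ k j, star (xx k j) * xx k j = star (R k j) * cEl φ z (r k j) * R k j := by
    intro k j
    have hs : CFC.sqrt (cEl φ z (r k j)) * CFC.sqrt (cEl φ z (r k j)) = cEl φ z (r k j) :=
      CFC.sqrt_mul_sqrt_self _ (cEl_nonneg _ _ _)
    have hsa : star (CFC.sqrt (cEl φ z (r k j))) = CFC.sqrt (cEl φ z (r k j)) :=
      (isSelfAdjoint_of_nonneg (CFC.sqrt_nonneg _)).star_eq
    simp only [hxx]
    rw [star_mul, hsa]
    calc star (R k j) * CFC.sqrt (cEl φ z (r k j)) * (CFC.sqrt (cEl φ z (r k j)) * R k j)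
        = star (R k j) * (CFC.sqrt (cEl φ z (r k j)) * CFC.sqrt (cEl φ z (r k j))) * R k j := by
          simp only [mul_assoc]
      _ = _ := by rw [hs]
  refine ⟨fun k => ∑ j, xx k j, ?_, ?_, ?_⟩
  · intro i k hik
    rw [star_sum, Finset.sum_mul]
    refine Finset.sum_eq_zero fun j _ => ?_
    rw [Finset.mul_sum]
    refine Finset.sum_eq_zero fun j' _ => ?_
    have h0 : κp i j * κp k j' = 0 := hκd i j k j' fun h => hik (congrArg Prod.fst h)
    calc star (xx i j) * xx k j' = (star (xx i j) * φ (κp i j)) * (φ (κp k j') * xx k j') := by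
          rw [hxxp, hxxp']
      _ = star (xx i j) * φ (κp i j * κp k j') * xx k j' := by
          rw [map_mul]; simp only [mul_assoc]
      _ = 0 := by rw [h0, map_zero, mul_zero, zero_mul]
  · intro i
    rw [Finset.mul_sum]
    have h1 : ∀ j ∈ Finset.univ, ‖y * xx i j‖ ≤ θ * K := by
      intro j _
      simp only [hxx]
      rw [← mul_assoc]
      refine (norm_mul_le _ _).trans ?_
      exact mul_le_mul ((y_sqrt_le φ hy0 hy1 hz0 hyz (r i j)).trans (hcomm' i j)) (hRn i j)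
        (norm_nonneg _) hθ0.le
    refine (norm_sum_le _ _).trans ((Finset.sum_le_sum h1).trans ?_)
    rw [Finset.sum_const, Finset.card_univ, Fintype.card_fin, nsmul_eq_mul]
    have h2 : θ * (J * K + 1) ≤ ω := by
      rw [le_div_iff₀ (by positivity)] at hθc
      exact hθc
    nlinarith
  · intro i f hf
    have h1 := assemble φ (σ i) hy0 hy1 q hq1 (xx i) (κp i) (hxxp i)
      (fun j j' hjj => hκd i j i j' fun h => hjj (congrArg Prod.snd h)) (fun j => f (x j)) f
      (M := M) (ω := ω / 4) (ε := ε)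
      (fun j => by
        have := f.norm_coe_le_norm (x j)
        rw [Real.norm_eq_abs] at this
        exact this.trans (hM f hf)) hM0 (by positivity) hε0.le
      (fun j w hw => hκo i j f hf w hw) (fun j w hw => hqo j f hf w hw)
      (fun j => by rw [hxx2]; exact hRe i j)
    refine h1.trans ?_
    have h2 : (J + 1) * (ω + M + 1) * ε = ω / 4 := by
      rw [hε]
      have : (ω + M + 1) ≠ 0 := by positivity
      field_simp
    have hJ : (0 : ℝ) ≤ J := Nat.cast_nonneg _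
    have h3 : (0 : ℝ) ≤ J * ε := by positivity
    nlinarith [mul_nonneg h3 hω.le, mul_nonneg h3 hM0, mul_nonneg hε0.le hω.le,
      mul_nonneg hε0.le hM0]

end main

end Pool.Agent.Helper78.FP
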