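import Pool.Agent.Helper44.FP.Lib
import Pool.Agent.Helper44.FP.Stmts2

set_option autoImplicit false

/-!
# MP_401a3a_an, module CORE
-/

namespace Pool.Agent.Helper78.FP

open Pool.Agent.Helper44.FP
open scoped Topology

universe u v

section core

variable {A : Type u} [CStarAlgebra A] {X : Type v} [TopologicalSpace X] [CompactSpace X]

/-- real and imaginary part -/
noncomputable def reF (f : C(X, ℂ)) : C(X, ℝ) := ⟨fun x => (f x).re, by fun_prop⟩
noncomputable def imF (f : C(X, ℂ)) : C(X, ℝ) := ⟨fun x => (f x).im, by fun_prop⟩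

theorem hom_split (φ : C(X, ℂ) →⋆ₐ[ℂ] A) (f : C(X, ℂ)) :
    φ f = realHom φ (reF f) + Complex.I • realHom φ (imF f) := by
  have e : f = (⟨fun x => (reF f x : ℂ), by fun_prop⟩ : C(X, ℂ)) +
      Complex.I • (⟨fun x => (imF f x : ℂ), by fun_prop⟩ : C(X, ℂ)) := by
    ext x
    change f x = ((f x).re : ℂ) + Complex.I * ((f x).im : ℂ)
    rw [mul_comm, Complex.re_add_im]
  conv_lhs => rw [e, map_add, map_smul]
  rfl

end core

open Classical in
theorem CORE_aux (hBR : ST_BRIDGE.{u}) (hU : ST_U.{u, v}) (hV : ST_VARC.{u, v}) :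
    ST_CORE.{u, v} := by
  intro A _ _ _ τ hτ hfaith hWC hMix X _ _ _ φ ψ hφ hψ hτφ
  have ht : IsTr (fun a : A => (τ a).re) := (hBR A).1 τ hτ
  have hne : Nonempty X := inferInstance
  obtain ⟨x0⟩ := hne
  rcases subsingleton_or_nontrivial X with hsub | hnon
  · -- a point
    intro F ε hε
    refine ⟨1, one_mem _, fun f _ => ?_⟩
    have hf : f = algebraMap ℂ C(X, ℂ) (f x0) := by
      ext x
      rw [Subsingleton.elim x x0]
      simp
    have h1 : φ f = algebraMap ℂ A (f x0) := by
      conv_lhs => rw [hf]
      exact AlgHomClass.commutes φ _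
    have h2 : ψ f = algebraMap ℂ A (f x0) := by
      conv_lhs => rw [hf]
      exact AlgHomClass.commutes ψ _
    rw [h1, h2, star_one, one_mul, mul_one, sub_self, norm_zero]
    exact hε
  · have hiso : ∀ x : X, (𝓝[≠] x).NeBot := fun x => inferInstance
    obtain ⟨p, ⟨H⟩⟩ := id_nullhomotopic X
    have hpos : ∀ f : C(X, ℝ), 0 ≤ f → f ≠ 0 → 0 < (τ (realHom φ f)).re := by
      intro f hf hf0
      set g : C(X, ℝ) := ⟨fun x => √(f x), by fun_prop⟩ with hg
      have hgg : f = g * g := by
        ext x
        exact (Real.mul_self_sqrt (hf x)).symm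
      have hsa : star (realHom φ g) = realHom φ g := (hom_isSelfAdjoint (realHom φ) g).star_eq
      have e1 : realHom φ f = star (realHom φ g) * realHom φ g := by
        rw [hsa, ← map_mul, ← hgg]
      have h0 : 0 ≤ (τ (realHom φ f)).re := by
        rw [e1]; exact ht.nonneg _
      refine lt_of_le_of_ne h0 fun h => hf0 ?_
      have h1 : realHom φ g = 0 := by
        apply hfaith
        rw [← e1, ← h]
      have h2 : (⟨fun x => (g x : ℂ), by fun_prop⟩ : C(X, ℂ)) = 0 := by
        apply hφ
        rw [map_zero]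
        exact h1
      have h3 : g = 0 := by
        ext x
        have := congrArg (fun k : C(X, ℂ) => k x) h2
        simpa using this
      rw [hgg, h3, zero_mul]
    have htwo : TwoEq (fun a : A => (τ a).re) (realHom φ) (realHom ψ) :=
      hV A _ ht hMix X (realHom φ) (realHom ψ) fun f => by
        change (τ (φ _)).re = (τ (ψ _)).re
        rw [hτφ]
    have hnorm := hU A X hiso H.toContinuousMap p (fun x => H.map_zero_left x)
      (fun x => H.map_one_left x) _ ht hWC (realHom φ) (realHom ψ) hpos htwo
    intro F ε hε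
    obtain ⟨u, hu, h⟩ := hnorm (F.image reF ∪ F.image imF) (ε / 3) (by positivity)
    refine ⟨u, hu, fun f hf => ?_⟩
    have h1 := h (reF f) (Finset.mem_union_left _ (Finset.mem_image_of_mem _ hf))
    have h2 := h (imF f) (Finset.mem_union_right _ (Finset.mem_image_of_mem _ hf))
    have e : u * φ f * star u - ψ f = (u * realHom φ (reF f) * star u - realHom ψ (reF f)) +
        Complex.I • (u * realHom φ (imF f) * star u - realHom ψ (imF f)) := by
      rw [hom_split φ f, hom_split ψ f, mul_add, add_mul, mul_smul_comm, smul_mul_assoc, smul_sub]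
      abel
    rw [e]
    refine lt_of_le_of_lt (norm_add_le _ _) ?_
    rw [norm_smul, Complex.norm_I, one_mul]
    linarith

end Pool.Agent.Helper78.FP
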