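import Pool.Agent.Helper44.FP.Lib
import Pool.Agent.Helper44.FP.Stmts2

set_option autoImplicit false

/-!
# MP_401a3a_an, module WCS
-/

namespace Pool.Agent.Helper78.FP

open Pool.Agent.Helper44.FP
open scoped Topology
open Filter

universe u v

section wcs

variable {A : Type u} [CStarAlgebra A] [PartialOrder A] [StarOrderedRing A]

theorem wcs_spec {a : A} (h0 : 0 ≤ a) (h1 : a ≤ 1) {x : ℝ} (hx : x ∈ spectrum ℝ a) :
    0 ≤ x ∧ x ≤ 1 :=
  ⟨spectrum_nonneg_of_nonneg h0 hx,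
    (CFC.le_one_iff a (IsSelfAdjoint.of_nonneg h0)).1 h1 x hx⟩

/-- the truncation `(a - η)_+` -/
noncomputable def cut (η : ℝ) (a : A) : A := cfc (fun s : ℝ => max (s - η) 0) a

theorem cut_nonneg (η : ℝ) (a : A) : 0 ≤ cut η a := cfc_nonneg fun _ _ => le_max_right _ _

theorem cut_le_one {η : ℝ} (hη : 0 ≤ η) {a : A} (h0 : 0 ≤ a) (h1 : a ≤ 1) : cut η a ≤ 1 := by
  refine cfc_le_one _ _ fun x hx => ?_
  have := wcs_spec h0 h1 hx
  exact max_le (by linarith) zero_le_one

theorem cut_comp {η : ℝ} {a : A} (h0 : 0 ≤ a) {p : ℝ} (hp : 0 < p) :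
    cfc (fun x : ℝ => x ^ p) (cut η a) = cfc (fun s : ℝ => (max (s - η) 0) ^ p) a := by
  have hsa : IsSelfAdjoint a := IsSelfAdjoint.of_nonneg h0
  have hc : Continuous (fun x : ℝ => x ^ p) := Real.continuous_rpow_const hp.le
  rw [cut, ← cfc_comp' (fun x : ℝ => x ^ p) (fun s : ℝ => max (s - η) 0) a hc.continuousOn
    (by fun_prop) hsa]

theorem cut_dist {η : ℝ} (hη : 0 ≤ η) {a : A} (h0 : 0 ≤ a) : ‖cut η a - a‖ ≤ η := by
  have hsa : IsSelfAdjoint a := IsSelfAdjoint.of_nonneg h0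
  have e : cut η a - a = cfc (fun s : ℝ => max (s - η) 0 - s) a := by
    rw [cfc_sub (fun s : ℝ => max (s - η) 0) (fun s : ℝ => s) a (by fun_prop) (by fun_prop),
      cfc_id' ℝ a, cut]
  rw [e]
  refine norm_cfc_le hη fun x hx => ?_
  have hx0 := spectrum_nonneg_of_nonneg h0 hx
  rw [Real.norm_eq_abs, abs_le]
  constructor
  · have := le_max_left (x - η) 0
    linarith
  · have : max (x - η) 0 ≤ x := max_le (by linarith) hx0
    linarith

variable {τ : A →ₗ[ℂ] ℂ}

/-- the terms of the dimension function -/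
noncomputable def dterm (τ : A →ₗ[ℂ] ℂ) (a : A) (m : ℕ) : ℝ :=
  (τ (cfc (fun x : ℝ => x ^ ((1 : ℝ) / (m + 1))) a)).re

theorem expo_pos (m : ℕ) : (0 : ℝ) < (1 : ℝ) / (m + 1) := by positivity

theorem expo_le_one (m : ℕ) : (1 : ℝ) / (m + 1) ≤ 1 := by
  rw [div_le_one (by positivity)]
  have : (0 : ℝ) ≤ m := Nat.cast_nonneg m
  linarith

theorem expo_anti {m n : ℕ} (h : m ≤ n) : (1 : ℝ) / (n + 1) ≤ (1 : ℝ) / (m + 1) := by
  have : (m : ℝ) ≤ n := by exact_mod_cast h
  exact one_div_le_one_div_of_le (by positivity) (by linarith)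

theorem dterm_mono (ht : IsTr (fun a : A => (τ a).re)) {a : A} (h0 : 0 ≤ a) (h1 : a ≤ 1) :
    Monotone (dterm τ a) := by
  intro m n hmn
  refine ht.mono (cfc_mono (fun x hx => ?_) ?_ ?_)
  · have := wcs_spec h0 h1 hx
    exact Real.rpow_le_rpow_of_exponent_ge' this.1 this.2 (expo_pos n).le (expo_anti hmn)
  · exact (Real.continuous_rpow_const (expo_pos m).le).continuousOn
  · exact (Real.continuous_rpow_const (expo_pos n).le).continuousOn

theorem dterm_le_one (ht : IsTr (fun a : A => (τ a).re)) {a : A} (h0 : 0 ≤ a) (h1 : a ≤ 1)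
    (m : ℕ) : dterm τ a m ≤ 1 := by
  have h : cfc (fun x : ℝ => x ^ ((1 : ℝ) / (m + 1))) a ≤ 1 := by
    refine cfc_le_one _ _ fun x hx => ?_
    have := wcs_spec h0 h1 hx
    exact Real.rpow_le_one this.1 this.2 (expo_pos m).le
  have h2 := ht.mono h
  rw [ht.one] at h2
  exact h2

theorem dimTau_tendsto (ht : IsTr (fun a : A => (τ a).re)) {a : A} (h0 : 0 ≤ a) (h1 : a ≤ 1) :
    Tendsto (dterm τ a) atTop (𝓝 (dimTau τ a)) := by
  have hb : BddAbove (Set.range (dterm τ a)) := by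
    refine ⟨1, ?_⟩
    rintro _ ⟨m, rfl⟩
    exact dterm_le_one ht h0 h1 m
  have h := tendsto_atTop_ciSup (dterm_mono ht h0 h1) hb
  have e : dimTau τ a = ⨆ i, dterm τ a i := h.limUnder_eq
  rw [e]
  exact h

theorem dimTau_cut_le (ht : IsTr (fun a : A => (τ a).re)) {a : A} (h0 : 0 ≤ a) (h1 : a ≤ 1)
    {η : ℝ} (hη : 0 < η) : dimTau τ (cut η a) ≤ η⁻¹ * (τ a).re := by
  refine le_of_tendsto' (dimTau_tendsto ht (cut_nonneg η a) (cut_le_one hη.le h0 h1)) fun m => ?_
  have hsa : IsSelfAdjoint a := IsSelfAdjoint.of_nonneg h0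
  have hle : cfc (fun x : ℝ => x ^ ((1 : ℝ) / (m + 1))) (cut η a) ≤ η⁻¹ • a := by
    rw [cut_comp h0 (expo_pos m)]
    have e : η⁻¹ • a = cfc (fun s : ℝ => η⁻¹ • s) a := by
      rw [cfc_smul η⁻¹ (fun s : ℝ => s) a (by fun_prop), cfc_id' ℝ a]
    rw [e]
    refine cfc_mono (fun x hx => ?_) ?_ (by fun_prop)
    · have hx := wcs_spec h0 h1 hx
      rw [smul_eq_mul]
      rcases le_total x η with h | h
      · rw [max_eq_right (by linarith), Real.zero_rpow (expo_pos m).ne']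
        have := hx.1
        positivity
      · rw [max_eq_left (by linarith)]
        have e1 : (x - η) ^ ((1 : ℝ) / (m + 1)) ≤ 1 :=
          Real.rpow_le_one (by linarith) (by linarith [hx.2]) (expo_pos m).le
        have e2 : 1 ≤ η⁻¹ * x := by
          rw [← inv_mul_cancel₀ hη.ne']
          exact mul_le_mul_of_nonneg_left h (by positivity)
        linarith
    · have : Continuous (fun s : ℝ => (max (s - η) 0) ^ ((1 : ℝ) / (m + 1))) :=
        (Real.continuous_rpow_const (expo_pos m).le).comp (by fun_prop)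
      exact this.continuousOn
  have h3 := ht.mono hle
  rw [ht.smul] at h3
  exact h3

theorem le_dimTau_cut (ht : IsTr (fun a : A => (τ a).re)) {a : A} (h0 : 0 ≤ a) (h1 : a ≤ 1)
    {η : ℝ} (hη : 0 < η) : (τ a).re - η ≤ dimTau τ (cut η a) := by
  refine ge_of_tendsto' (dimTau_tendsto ht (cut_nonneg η a) (cut_le_one hη.le h0 h1)) fun m => ?_
  have hsa : IsSelfAdjoint a := IsSelfAdjoint.of_nonneg h0
  have hle : a - algebraMap ℝ A η ≤ cfc (fun x : ℝ => x ^ ((1 : ℝ) / (m + 1))) (cut η a) := by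
    rw [cut_comp h0 (expo_pos m)]
    have e : a - algebraMap ℝ A η = cfc (fun s : ℝ => s - η) a := by
      rw [cfc_sub (fun s : ℝ => s) (fun _ => η) a (by fun_prop) (by fun_prop), cfc_id' ℝ a,
        cfc_const η a]
    rw [e]
    refine cfc_mono (fun x hx => ?_) (by fun_prop) ?_
    · have hx := wcs_spec h0 h1 hx
      have hm0 : 0 ≤ max (x - η) 0 := le_max_right _ _
      have hm1 : max (x - η) 0 ≤ 1 := max_le (by linarith [hx.2]) zero_le_one
      have h5 := Real.rpow_le_rpow_of_exponent_ge' hm0 hm1 (expo_pos m).le (expo_le_one m)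
      rw [Real.rpow_one] at h5
      exact (le_max_left _ _).trans h5
    · have : Continuous (fun s : ℝ => (max (s - η) 0) ^ ((1 : ℝ) / (m + 1))) :=
        (Real.continuous_rpow_const (expo_pos m).le).comp (by fun_prop)
      exact this.continuousOn
  have h3 := ht.mono hle
  rw [ht.sub, ht.algMap] at h3
  exact h3

/-- the factor used to pass from `(c - η)_+` to `c` -/
noncomputable def kf (η : ℝ) (s : ℝ) : ℝ := √(max (s - η) 0 / max s η)

theorem kf_cont {η : ℝ} (hη : 0 < η) : Continuous (kf η) := by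
  unfold kf
  refine Real.continuous_sqrt.comp (Continuous.div (by fun_prop) (by fun_prop) fun s => ?_)
  exact (lt_of_lt_of_le hη (le_max_right s η)).ne'

theorem kf_sq {η : ℝ} (hη : 0 < η) (s : ℝ) : kf η s * kf η s = max (s - η) 0 / max s η := by
  unfold kf
  rw [← sq, Real.sq_sqrt]
  exact div_nonneg (le_max_right _ _) (hη.le.trans (le_max_right s η))

theorem kf_mul {η : ℝ} (hη : 0 < η) (s : ℝ) : kf η s * s * kf η s = max (s - η) 0 := by
  have e : kf η s * s * kf η s = (kf η s * kf η s) * s := by ring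
  rw [e, kf_sq hη]
  rcases le_total s η with h | h
  · rw [max_eq_right (by linarith : s - η ≤ 0)]
    simp
  · rw [max_eq_left (by linarith : (0 : ℝ) ≤ s - η), max_eq_left h]
    have : s ≠ 0 := (lt_of_lt_of_le hη h).ne'
    field_simp

theorem kf_conj {η : ℝ} (hη : 0 < η) {c : A} (h0 : 0 ≤ c) :
    star (cfc (kf η) c) * c * cfc (kf η) c = cut η c := by
  have hsa : IsSelfAdjoint c := IsSelfAdjoint.of_nonneg h0
  have hk := (kf_cont hη).continuousOn (s := spectrum ℝ c)
  have hks : star (cfc (kf η) c) = cfc (kf η) c := (cfc_predicate (kf η) c).star_eq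
  have e2 : cfc (kf η) c * c * cfc (kf η) c = cfc (fun s : ℝ => kf η s * s * kf η s) c := by
    rw [cfc_mul (fun s : ℝ => kf η s * s) (kf η) c (hk.mul continuousOn_id) hk,
      cfc_mul (kf η) (fun s : ℝ => s) c hk continuousOn_id, cfc_id' ℝ c]
  rw [hks, e2, cut]
  refine cfc_congr fun s _ => ?_
  exact kf_mul hη s

theorem kf_sq_le {η : ℝ} (hη : 0 < η) {c : A} (h0 : 0 ≤ c) :
    star (cfc (kf η) c) * cfc (kf η) c ≤ η⁻¹ • cut η c := by
  have hsa : IsSelfAdjoint c := IsSelfAdjoint.of_nonneg h0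
  have hk := (kf_cont hη).continuousOn (s := spectrum ℝ c)
  have hks : star (cfc (kf η) c) = cfc (kf η) c := (cfc_predicate (kf η) c).star_eq
  rw [hks, ← cfc_mul (kf η) (kf η) c hk hk, cut,
    ← cfc_smul η⁻¹ (fun s : ℝ => max (s - η) 0) c (by fun_prop)]
  refine cfc_mono (fun s _ => ?_) (hk.mul hk) (by fun_prop)
  rw [kf_sq hη, smul_eq_mul, div_eq_mul_inv, mul_comm]
  refine mul_le_mul_of_nonneg_right ?_ (le_max_right _ _)
  exact inv_anti₀ hη (le_max_right s η)

theorem wcs_main (ht : IsTr (fun a : A => (τ a).re))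
    (hcmp : ∀ a b : A, IsPos a → IsPos b → dimTau τ a < dimTau τ b → CuntzLE a b) :
    WC (fun a : A => (τ a).re) := by
  intro ε hε δ hδ
  refine ⟨ε * δ / 8, by positivity, √((δ / 2)⁻¹ * (1 + ε)), Real.sqrt_nonneg _, ?_⟩
  intro b c hb0 hb1 hc0 hc1 hb hc
  have hη1 : 0 < ε / 2 := by positivity
  have hη2 : 0 < δ / 2 := by positivity
  have e1 : dimTau τ (cut (ε / 2) b) ≤ δ / 4 := by
    refine (dimTau_cut_le ht hb0 hb1 hη1).trans ?_
    have h1 : (ε / 2)⁻¹ * (τ b).re ≤ (ε / 2)⁻¹ * (ε * δ / 8) :=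
      mul_le_mul_of_nonneg_left hb (by positivity)
    refine h1.trans (le_of_eq ?_)
    field_simp
    ring
  have e2 : δ / 2 ≤ dimTau τ (cut (δ / 2) c) := by
    have h1 := le_dimTau_cut ht hc0 hc1 hη2
    have h2 : δ ≤ (τ c).re := hc
    linarith
  have hpos : ∀ a : A, 0 ≤ a → IsPos a := fun a ha =>
    CStarAlgebra.nonneg_iff_eq_star_mul_self.1 ha
  obtain ⟨r, hr⟩ := hcmp _ _ (hpos _ (cut_nonneg (ε / 2) b)) (hpos _ (cut_nonneg (δ / 2) c))
    (by linarith) (ε / 4) (by positivity)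
  have hR : star (cfc (kf (δ / 2)) c * r) * c * (cfc (kf (δ / 2)) c * r) =
      star r * cut (δ / 2) c * r := by
    rw [← kf_conj hη2 hc0, star_mul]
    simp only [mul_assoc]
  refine ⟨cfc (kf (δ / 2)) c * r, ?_, ?_⟩
  · have h1 : star (cfc (kf (δ / 2)) c * r) * (cfc (kf (δ / 2)) c * r) ≤
        (δ / 2)⁻¹ • (star r * cut (δ / 2) c * r) := by
      have h2 := star_left_conjugate_le_conjugate (kf_sq_le hη2 hc0) r
      rw [star_mul]
      have e3 : star r * star (cfc (kf (δ / 2)) c) * (cfc (kf (δ / 2)) c * r) =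
          star r * (star (cfc (kf (δ / 2)) c) * cfc (kf (δ / 2)) c) * r := by
        simp only [mul_assoc]
      rw [e3]
      refine h2.trans (le_of_eq ?_)
      rw [mul_smul_comm, smul_mul_assoc]
    have h2 : ‖cfc (kf (δ / 2)) c * r‖ ^ 2 ≤ (δ / 2)⁻¹ * (1 + ε) := by
      rw [sq, ← CStarRing.norm_star_mul_self]
      refine (CStarAlgebra.norm_le_norm_of_nonneg_of_le (star_mul_self_nonneg _) h1).trans ?_
      rw [norm_smul, Real.norm_of_nonneg (by positivity)]
      refine mul_le_mul_of_nonneg_left ?_ (by positivity)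
      have h3 : ‖cut (ε / 2) b‖ ≤ 1 :=
        (CStarAlgebra.norm_le_one_iff_of_nonneg _ (cut_nonneg _ _)).2
          (cut_le_one hη1.le hb0 hb1)
      have h4 : ‖star r * cut (δ / 2) c * r‖ ≤
          ‖star r * cut (δ / 2) c * r - cut (ε / 2) b‖ + ‖cut (ε / 2) b‖ := by
        have := norm_add_le (star r * cut (δ / 2) c * r - cut (ε / 2) b) (cut (ε / 2) b)
        rwa [sub_add_cancel] at this
      linarith
    exact Real.le_sqrt_of_sq_le h2
  · rw [hR]
    have h4 : ‖star r * cut (δ / 2) c * r - b‖ ≤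
        ‖star r * cut (δ / 2) c * r - cut (ε / 2) b‖ + ‖cut (ε / 2) b - b‖ := by
      have := norm_add_le (star r * cut (δ / 2) c * r - cut (ε / 2) b) (cut (ε / 2) b - b)
      rwa [sub_add_sub_cancel] at this
    have h5 := cut_dist hη1.le hb0
    linarith

end wcs

/-- WCS, from BRIDGE. -/
theorem WCS_aux (hBR : ST_BRIDGE.{u}) : ST_WCS.{u} := by
  intro A _ _ _ τ hτ hcmp
  exact wcs_main ((hBR A).1 τ hτ) hcmp

end Pool.Agent.Helper78.FP
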